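import Mathlib

set_option autoImplicit false

namespace Pool.Agent.P.MP_c3beeb_co

/-- `G` has book thickness at most two: the vertices can be placed at distinct points of a line
and the edges coloured with two colours so that crossing edges have different colours -/
def TwoPage {V : Type} (G : SimpleGraph V) : Prop :=
  ∃ (p : V → ℕ) (c : Sym2 V → Bool), Function.Injective p ∧
    ∀ a b x y : V, G.Adj a b → G.Adj x y → p a < p x → p x < p b → p b < p y →
      c s(a, b) ≠ c s(x, y)

end Pool.Agent.P.MP_c3beeb_co
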