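import Pool.Agent.P.MP_c3beeb_co.Words

set_option autoImplicit false

/-! A graph with a shortcut-free order is representable (Halldorsson, Kitaev, Pyatkin). -/

namespace Pool.Agent.P.MP_c3beeb_co.Deg4

open Classical Pool.Agent.P.MP_c3beeb_co

/-- the order in which the six groups of vertices are written -/
def segs : List ℕ := [0, 1, 2, 0, 3, 4, 1, 3, 5, 2, 4, 5]

/-- position of `x` relative to `v` -/
noncomputable def grp {V : Type} (A R : V → V → Prop) (v x : V) : ℕ :=
  if x = v then 3 else if R x v then (if A x v then 1 else 0)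
  else if R v x then (if A x v then 4 else 5) else 2

/-- the block of the word attached to a grouping -/
noncomputable def blk {V : Type} (L : List V) (g : V → ℕ) : List V :=
  segs.flatMap fun k => L.filter fun z => decide (g z = k)

lemma blk_filter {V : Type} (L : List V) (g : V → ℕ) (p : V → Bool) :
    (blk L g).filter p = blk (L.filter p) g := by
  unfold blk
  rw [List.filter_flatMap]
  congr 1
  funext k
  rw [List.filter_filter, List.filter_filter]
  congr 1
  funext z
  exact Bool.and_comm _ _

lemma grp_arc {V : Type} {A R : V → V → Prop} (H : Shadow A R) (v x y : V) (hxy : x ≠ y)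
    (hA : A x y) (hR : R x y) : blk [x, y] (grp A R v) = [x, y, x, y] := by
  have key : (grp A R v x = 0 ∧ grp A R v y = 0) ∨ (grp A R v x = 0 ∧ grp A R v y = 1) ∨
      (grp A R v x = 0 ∧ grp A R v y = 2) ∨ (grp A R v x = 1 ∧ grp A R v y = 1) ∨
      (grp A R v x = 1 ∧ grp A R v y = 3) ∨ (grp A R v x = 1 ∧ grp A R v y = 2) ∨
      (grp A R v x = 1 ∧ grp A R v y = 4) ∨ (grp A R v x = 2 ∧ grp A R v y = 2) ∨
      (grp A R v x = 2 ∧ grp A R v y = 4) ∨ (grp A R v x = 2 ∧ grp A R v y = 5) ∨
      (grp A R v x = 3 ∧ grp A R v y = 4) ∨ (grp A R v x = 4 ∧ grp A R v y = 4) ∨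
      (grp A R v x = 4 ∧ grp A R v y = 5) ∨ (grp A R v x = 5 ∧ grp A R v y = 5) := by
    have f1 : R y v → R x v := fun h => H.trans hR h
    have f2 : R v x → R v y := fun h => H.trans h hR
    have f3 : R y v → A x v → y ≠ v → A y v := fun h h' h'' => H.short hR h (H.refl v) h' h''
    have f4 : R v x → A y v → x ≠ v → A x v := fun h h' h'' =>
      H.symm (H.short (H.refl v) h hR (H.symm h') h''.symm)
    have f5 : R x v → R v y → x ≠ v → A x v := fun h h' h'' => H.short (H.refl x) h h' hA h''
    have f6 : R x v → R v y → y ≠ v → A y v := fun h h' h'' =>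
      H.symm (H.short h h' (H.refl y) hA h''.symm)
    have f7 : R y v → R v y → y = v := fun h h' => H.anti h h'
    unfold grp
    by_cases hx : x = v
    · subst hx
      have h1 : ¬ R y x := fun h => hxy (H.anti hR h)
      simp [hxy.symm, h1, hR, H.symm hA]
    · by_cases hy : y = v
      · subst hy
        simp [hx, hR, hA]
      · rw [if_neg hx, if_neg hy]
        by_cases a1 : R x v <;> by_cases a2 : R y v <;> by_cases a3 : R v x <;>
          by_cases a4 : R v y <;> by_cases a5 : A x v <;> by_cases a6 : A y v <;> simp_all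
  unfold blk segs
  rcases key with h | h | h | h | h | h | h | h | h | h | h | h | h | h <;>
    simp [List.filter_cons, h.1, h.2]

lemma grp_non {V : Type} {A R : V → V → Prop} (x y : V) (hxy : x ≠ y) (hA : ¬ A y x) :
    ¬ List.IsChain (fun a b => a ≠ b) (blk [x, y] (grp A R x)) := by
  have h1 : grp A R x x = 3 := by simp [grp]
  have h2 : grp A R x y = 0 ∨ grp A R x y = 2 ∨ grp A R x y = 5 := by
    unfold grp
    rw [if_neg hxy.symm, if_neg hA, if_neg hA]
    split_ifs <;> simp
  unfold blk segs
  rcases h2 with h | h | h <;> simp [List.filter_cons, h, h1]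

lemma chain_rep {V W : Type} (x y : V) (hxy : x ≠ y) (l : List W) :
    List.IsChain (fun a b => a ≠ b) (y :: l.flatMap fun _ => [x, y, x, y]) := by
  induction l with
  | nil => simp
  | cons a l ih =>
    simp only [List.flatMap_cons, List.cons_append, List.nil_append, List.isChain_cons_cons]
    exact ⟨hxy.symm, hxy, hxy.symm, hxy, ih⟩

lemma alternate_symm {V : Type} (w : List V) (x y : V) : Alternate w x y ↔ Alternate w y x := by
  unfold Alternate
  simp only [or_comm (a := _ = y)]
  tauto

theorem representable_of_shadow {V : Type} [Fintype V] (G : SimpleGraph V) (R : V → V → Prop)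
    (H : Shadow G.Adj R) : Representable G := by
  let h : V → ℕ := fun x => (Finset.univ.filter fun z => R z x).card
  have hlt : ∀ x y, x ≠ y → R x y → h x < h y := by
    intro x y hxy hR
    apply Finset.card_lt_card
    refine ⟨fun z hz => ?_, fun hs => ?_⟩
    · simp only [Finset.mem_filter, Finset.mem_univ, true_and] at hz ⊢
      exact H.trans hz hR
    · have := hs (show y ∈ _ by simp [H.refl])
      simp only [Finset.mem_filter, Finset.mem_univ, true_and] at this
      exact hxy (H.anti hR this)
  let r : V → V → Prop := fun a b => h a ≤ h b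
  have : Std.Total r := ⟨fun a b => le_total _ _⟩
  have : IsTrans V r := ⟨fun a b c => le_trans⟩
  let L : List V := (Finset.univ : Finset V).toList.insertionSort r
  have hLp : L.Perm (Finset.univ : Finset V).toList := List.perm_insertionSort _ _
  have hLm : ∀ v, v ∈ L := fun v => hLp.mem_iff.mpr (by simp)
  have hLn : L.Nodup := hLp.nodup_iff.mpr (Finset.nodup_toList _)
  have hLs : L.Pairwise r := List.pairwise_insertionSort _ _
  have hpair : ∀ x y, x ≠ y → L.filter (fun z => decide (z = x ∨ z = y)) = [x, y] ∨
      L.filter (fun z => decide (z = x ∨ z = y)) = [y, x] := by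
    intro x y hxy
    rw [← List.perm_pair, List.perm_ext_iff_of_nodup (hLn.filter _) (by simp [hxy])]
    intro a
    simp [hLm]
  let w : List V := L.flatMap fun v => blk L (grp G.Adj R v)
  have hw : ∀ v, v ∈ w := by
    intro v
    refine List.mem_flatMap.mpr ⟨v, hLm v, ?_⟩
    unfold blk segs
    refine List.mem_flatMap.mpr ⟨3, by simp, ?_⟩
    simp [hLm, grp]
  have hwf : ∀ p : V → Bool, w.filter p = L.flatMap fun v => blk (L.filter p) (grp G.Adj R v) := by
    intro p
    rw [List.filter_flatMap]
    simp only [blk_filter]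
  have harc : ∀ x y, G.Adj x y → R x y → Alternate w x y := by
    intro x y hA hR
    refine ⟨hw x, hw y, ?_⟩
    rw [hwf]
    rcases hpair x y hA.ne with e | e
    · rw [e]
      simp only [grp_arc H _ x y hA.ne hA hR]
      exact (chain_rep x y hA.ne L).tail
    · exfalso
      have := hLs.filter (fun z => decide (z = x ∨ z = y))
      rw [e] at this
      have h2 : h y ≤ h x := by simpa using this
      have := hlt x y hA.ne hR
      omega
  have hnon : ∀ x y, x ≠ y → ¬ G.Adj x y →
      L.filter (fun z => decide (z = x ∨ z = y)) = [x, y] → ¬ Alternate w x y := by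
    intro x y hxy hA e hc
    have hc := hc.2.2
    rw [hwf, e] at hc
    obtain ⟨s, t, hst⟩ := List.append_of_mem (hLm x)
    rw [hst, List.flatMap_append, List.flatMap_cons] at hc
    exact grp_non (A := G.Adj) (R := R) x y hxy (fun h => hA h.symm)
      hc.right_of_append.left_of_append
  refine ⟨w, hw, fun x y hxy => ⟨fun hA => ?_, fun hc => ?_⟩⟩
  · rcases H.tot hA with hR | hR
    · exact harc x y hA hR
    · exact (alternate_symm w x y).mpr (harc y x hA.symm hR)
  · by_contra hA
    rcases hpair x y hxy with e | e
    · exact hnon x y hxy hA e hc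
    · refine hnon y x hxy.symm (fun h => hA h.symm) ?_ ((alternate_symm w x y).mp hc)
      rw [← e]
      simp only [or_comm (a := _ = y)]

end Pool.Agent.P.MP_c3beeb_co.Deg4
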