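import Mathlib

set_option autoImplicit false

namespace Pool.Agent.P.MP_c3beeb_co

open Classical in
/-- both letters occur in `w`, and deleting all other letters leaves a word in which any two
consecutive letters differ -/
def Alternate {V : Type} (w : List V) (x y : V) : Prop :=
  x ∈ w ∧ y ∈ w ∧ List.IsChain (fun a b => a ≠ b) (w.filter (fun z => decide (z = x ∨ z = y)))

/-- `G` is the alternating graph of a word in which every vertex occurs -/
def Representable {V : Type} (G : SimpleGraph V) : Prop :=
  ∃ w : List V, (∀ v, v ∈ w) ∧ ∀ x y : V, x ≠ y → (G.Adj x y ↔ Alternate w x y)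

end Pool.Agent.P.MP_c3beeb_co
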