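import Pool.Agent.P.MP_c3beeb_co.Order

set_option autoImplicit false

namespace Pool.Agent.P.MP_c3beeb_co

open SimpleGraph

/-- the fan: a path on `0, …, n - 1` joined to the hub `n` -/
def fan (n : ℕ) : SimpleGraph (Fin (n + 1)) where
  Adj a b := a.val ≠ b.val ∧ (a.val = n ∨ b.val = n ∨ a.val + 1 = b.val ∨ b.val + 1 = a.val)
  symm := ⟨fun a b h => by omega⟩
  loopless := ⟨fun a h => h.1 rfl⟩

/-- the wheel: a cycle on `0, …, n - 1` joined to the hub `n` -/
def wheel (n : ℕ) : SimpleGraph (Fin (n + 1)) where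
  Adj a b := a.val ≠ b.val ∧ (a.val = n ∨ b.val = n ∨ a.val + 1 = b.val ∨ b.val + 1 = a.val ∨
    (a.val = 0 ∧ b.val + 1 = n) ∨ (b.val = 0 ∧ a.val + 1 = n))
  symm := ⟨fun a b h => by omega⟩
  loopless := ⟨fun a h => h.1 rfl⟩

lemma edge_eq_iff {n : ℕ} {G : SimpleGraph (Fin n)} (a b c d : Fin n) (h1 : s(a, b) ∈ G.edgeSet)
    (h2 : s(c, d) ∈ G.edgeSet) :
    (⟨s(a, b), h1⟩ : G.edgeSet) = ⟨s(c, d), h2⟩ ↔
      (a.val = c.val ∧ b.val = d.val) ∨ (a.val = d.val ∧ b.val = c.val) := by
  simp only [Subtype.mk.injEq, Sym2.eq_iff, Fin.ext_iff]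

lemma line_adj_iff {n : ℕ} {G : SimpleGraph (Fin n)} (a b c d : Fin n) (h1 : s(a, b) ∈ G.edgeSet)
    (h2 : s(c, d) ∈ G.edgeSet) :
    G.lineGraph.Adj ⟨s(a, b), h1⟩ ⟨s(c, d), h2⟩ ↔
      ¬ ((a.val = c.val ∧ b.val = d.val) ∨ (a.val = d.val ∧ b.val = c.val)) ∧
      (a.val = c.val ∨ a.val = d.val ∨ b.val = c.val ∨ b.val = d.val) := by
  rw [lineGraph_adj_iff_exists, ne_eq, edge_eq_iff]
  refine and_congr_right fun _ => ?_
  simp only [Sym2.mem_iff, exists_eq_or_imp, exists_eq_left]
  simp only [Fin.ext_iff, or_assoc]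

/-- spokes of the wheel -/
def ws (n : ℕ) (hn : 5 ≤ n) (i : ℕ) : (wheel n).edgeSet :=
  ⟨s(⟨min i (n - 1), by omega⟩, ⟨n, by omega⟩), by
    simp only [mem_edgeSet, wheel, true_or, or_true, and_true]; omega⟩

/-- rim edges of the wheel -/
def we (n : ℕ) (hn : 5 ≤ n) (i : ℕ) : (wheel n).edgeSet :=
  ⟨s(⟨min i (n - 1), by omega⟩, ⟨if i + 1 < n then i + 1 else 0, by split_ifs <;> omega⟩), by
    simp only [mem_edgeSet, wheel]; split_ifs <;> omega⟩

lemma wheel_pat (n : ℕ) (hn : 5 ≤ n) : Pat (wheel n).lineGraph.Adj n (ws n hn) (we n hn) where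
  hss i hi j hj hij := by
    unfold ws; rw [line_adj_iff]; dsimp only; omega
  hsi i hi j hj := by
    unfold ws; rw [edge_eq_iff]; dsimp only; omega
  hes i hi j hj := by
    unfold ws we Sc; rw [line_adj_iff]; dsimp only; split_ifs <;> omega
  hne i hi j hj := by
    unfold ws we; rw [ne_eq, edge_eq_iff]; dsimp only; split_ifs <;> omega
  hee i hi j hj := by
    unfold we Sc; rw [line_adj_iff]; dsimp only
    by_cases h1 : i + 1 < n <;> by_cases h2 : j + 1 < n
    · rw [if_pos h1, if_pos h2]; omega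
    · rw [if_pos h1, if_neg h2]; omega
    · rw [if_neg h1, if_pos h2]; omega
    · rw [if_neg h1, if_neg h2]; omega
  hei i hi j hj := by
    unfold we; rw [edge_eq_iff]; dsimp only; split_ifs <;> omega

theorem wheel_not_representable (n : ℕ) (hn : 5 ≤ n) : ¬ Representable (wheel n).lineGraph := by
  intro h
  obtain ⟨R, hR⟩ := shadow_of_representable h
  exact no_shadow hR n hn _ _ (wheel_pat n hn)

/-- spokes of the fan -/
def fs (n : ℕ) (hn : 5 ≤ n) (i : ℕ) : (fan n).edgeSet :=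
  ⟨s(⟨min i (n - 1), by omega⟩, ⟨n, by omega⟩), by
    simp only [mem_edgeSet, fan, true_or, or_true, and_true]; omega⟩

/-- path edges of the fan -/
def fe (n : ℕ) (hn : 5 ≤ n) (i : ℕ) : (fan n).edgeSet :=
  ⟨s(⟨min i (n - 2), by omega⟩, ⟨min i (n - 2) + 1, by omega⟩), by
    simp only [mem_edgeSet, fan, true_or, or_true, and_true]; omega⟩

lemma fan_cases (n : ℕ) (hn : 5 ≤ n) (v : (fan n).edgeSet) :
    (∃ i, i < n ∧ v = fs n hn i) ∨ (∃ i, i + 1 < n ∧ v = fe n hn i) := by
  obtain ⟨v, hv⟩ := v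
  induction v using Sym2.ind with
  | h a b =>
    have hv' := hv
    simp only [mem_edgeSet, fan] at hv'
    have ha := a.2
    have hb := b.2
    by_cases h1 : a.val = n
    · exact Or.inl ⟨b.val, by omega, by unfold fs; rw [edge_eq_iff]; dsimp only; omega⟩
    by_cases h2 : b.val = n
    · exact Or.inl ⟨a.val, by omega, by unfold fs; rw [edge_eq_iff]; dsimp only; omega⟩
    by_cases h3 : a.val + 1 = b.val
    · exact Or.inr ⟨a.val, by omega, by unfold fe; rw [edge_eq_iff]; dsimp only; omega⟩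
    · exact Or.inr ⟨b.val, by omega, by unfold fe; rw [edge_eq_iff]; dsimp only; omega⟩

/-- the representing word, letter by letter -/
def fw (n : ℕ) (hn : 5 ≤ n) (p : ℕ) : Option (fan n).edgeSet :=
  if p % 3 = 0 ∧ p / 3 + 1 < n then some (fe n hn (p / 3))
  else if p % 3 = 1 ∧ p / 3 < n then some (fs n hn (p / 3))
  else if p % 3 = 2 ∧ 1 ≤ p / 3 ∧ p / 3 < n then some (fe n hn (p / 3 - 1))
  else none

lemma fw_s (n : ℕ) (hn : 5 ≤ n) (i : ℕ) (hi : i < n) (q : ℕ) :
    fw n hn q = some (fs n hn i) ↔ q = 3 * i + 1 := by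
  unfold fw fs fe
  split_ifs with h1 h2 h3
  · rw [Option.some.injEq, edge_eq_iff]; dsimp only; omega
  · rw [Option.some.injEq, edge_eq_iff]; dsimp only; omega
  · rw [Option.some.injEq, edge_eq_iff]; dsimp only; omega
  · simp only [false_iff]; omega

lemma fw_e (n : ℕ) (hn : 5 ≤ n) (i : ℕ) (hi : i + 1 < n) (q : ℕ) :
    fw n hn q = some (fe n hn i) ↔ q = 3 * i ∨ q = 3 * i + 5 := by
  unfold fw fs fe
  split_ifs with h1 h2 h3
  · rw [Option.some.injEq, edge_eq_iff]; dsimp only; omega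
  · rw [Option.some.injEq, edge_eq_iff]; dsimp only; omega
  · rw [Option.some.injEq, edge_eq_iff]; dsimp only; omega
  · simp only [false_iff]; omega

lemma cond_ss (n i j : ℕ) :
    (∀ t ≤ 3 * n, (if 3 * j + 1 < t then 1 else 0) ≤ (if 3 * i + 1 < t then 1 else 0) ∧
      (if 3 * i + 1 < t then 1 else 0) ≤ (if 3 * j + 1 < t then 1 else 0) + 1) ∨
    (∀ t ≤ 3 * n, (if 3 * i + 1 < t then 1 else 0) ≤ (if 3 * j + 1 < t then 1 else 0) ∧
      (if 3 * j + 1 < t then 1 else 0) ≤ (if 3 * i + 1 < t then 1 else 0) + 1) := by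
  rcases le_total i j with h | h
  · left; intro t _; split_ifs <;> omega
  · right; intro t _; split_ifs <;> omega

lemma cond_es (n i j : ℕ) (hi : i + 1 < n) (hj : j < n) :
    ((∀ t ≤ 3 * n, (if 3 * j + 1 < t then 1 else 0) ≤
        (if 3 * i < t then 1 else 0) + (if 3 * i + 5 < t then 1 else 0) ∧
      (if 3 * i < t then 1 else 0) + (if 3 * i + 5 < t then 1 else 0) ≤
        (if 3 * j + 1 < t then 1 else 0) + 1) ∨
    (∀ t ≤ 3 * n, (if 3 * i < t then 1 else 0) + (if 3 * i + 5 < t then 1 else 0) ≤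
        (if 3 * j + 1 < t then 1 else 0) ∧
      (if 3 * j + 1 < t then 1 else 0) ≤
        (if 3 * i < t then 1 else 0) + (if 3 * i + 5 < t then 1 else 0) + 1)) ↔
    (j = i ∨ j = i + 1) := by
  constructor
  · rintro (h | h)
    · have h1 := (h (3 * j + 2) (by omega)).1
      have h2 := (h (3 * i + 6) (by omega)).2
      split_ifs at h1 h2 <;> omega
    · have h2 := (h (3 * i + 6) (by omega)).1
      split_ifs at h2 <;> omega
  · intro h
    left; intro t _; split_ifs <;> omega

lemma cond_ee (n i j : ℕ) (hi : i + 1 < n) (hj : j + 1 < n) (hij : i ≠ j) :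
    (∀ t ≤ 3 * n, (if 3 * j < t then 1 else 0) + (if 3 * j + 5 < t then 1 else 0) ≤
        (if 3 * i < t then 1 else 0) + (if 3 * i + 5 < t then 1 else 0) ∧
      (if 3 * i < t then 1 else 0) + (if 3 * i + 5 < t then 1 else 0) ≤
        (if 3 * j < t then 1 else 0) + (if 3 * j + 5 < t then 1 else 0) + 1) ↔ j = i + 1 := by
  constructor
  · intro h
    have h1 := (h (3 * j + 1) (by omega)).1
    have h2 := (h (3 * i + 6) (by omega)).2
    split_ifs at h1 h2 <;> omega
  · intro h t _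
    split_ifs <;> omega

theorem fan_representable (n : ℕ) (hn : 5 ≤ n) : Representable (fan n).lineGraph := by
  have cs : ∀ i < n, ∀ t, cnt (some (fs n hn i)) ((List.range t).map (fw n hn)) =
      if 3 * i + 1 < t then 1 else 0 := fun i hi t => count_one _ _ _ (fw_s n hn i hi) t
  have ce : ∀ i, i + 1 < n → ∀ t, cnt (some (fe n hn i)) ((List.range t).map (fw n hn)) =
      (if 3 * i < t then 1 else 0) + (if 3 * i + 5 < t then 1 else 0) :=
    fun i hi t => count_two _ _ _ _ (by omega) (fw_e n hn i hi) t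
  refine representable_of_counts _ (fw n hn) (3 * n)
    (fun v t => cnt (some v) ((List.range t).map (fw n hn))) (fun _ _ => rfl) ?_ ?_
  · intro v
    rcases fan_cases n hn v with ⟨i, hi, rfl⟩ | ⟨i, hi, rfl⟩
    · rw [cs i hi, if_pos (by omega)]; omega
    · rw [ce i hi, if_pos (by omega)]; omega
  · intro x y hxy
    rcases fan_cases n hn x with ⟨i, hi, rfl⟩ | ⟨i, hi, rfl⟩ <;>
      rcases fan_cases n hn y with ⟨j, hj, rfl⟩ | ⟨j, hj, rfl⟩
    · have hij : i ≠ j := fun h => hxy (by rw [h])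
      simp only [cs i hi, cs j hj]
      refine iff_of_true ?_ (cond_ss n i j)
      unfold fs; rw [line_adj_iff]; dsimp only; omega
    · simp only [cs i hi, ce j hj]
      rw [or_comm, cond_es n j i hj hi]
      unfold fs fe; rw [line_adj_iff]; dsimp only; omega
    · simp only [ce i hi, cs j hj]
      rw [cond_es n i j hi hj]
      unfold fs fe; rw [line_adj_iff]; dsimp only; omega
    · have hij : i ≠ j := fun h => hxy (by rw [h])
      simp only [ce i hi, ce j hj]
      rw [cond_ee n i j hi hj hij, cond_ee n j i hj hi hij.symm]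
      unfold fe; rw [line_adj_iff]; dsimp only; omega

lemma contained_fan {k n : ℕ} (F : SimpleGraph (Fin k)) (hk : k < n) (h : F ⊑ wheel n) :
    F ⊑ fan n := by
  obtain ⟨f⟩ := h
  have hr : ∃ r : Fin n, ∀ v, f v ≠ r.castSucc := by
    by_contra hc
    push Not at hc
    choose g hg using hc
    have hinj : Function.Injective g := by
      intro a b hab
      have := hg a
      rw [hab, hg b] at this
      exact (Fin.castSucc_injective n this).symm
    have := Fintype.card_le_of_injective g hinj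
    simp at this
    omega
  obtain ⟨r, hr⟩ := hr
  have hr' : ∀ v, (f v).val ≠ r.val := fun v h => hr v (Fin.ext h)
  have hrn := r.2
  let ρ : Fin (n + 1) → Fin (n + 1) := fun a =>
    ⟨if a.val = n then n else if r.val ≤ a.val then a.val - r.val else a.val + n - r.val, by
      have := a.2
      split_ifs <;> omega⟩
  refine ⟨⟨⟨fun v => ρ (f v), ?_⟩, ?_⟩⟩
  · intro a b hab
    have h1 : (wheel n).Adj (f a) (f b) := f.toHom.map_adj hab
    have h2 := hr' a
    have h3 := hr' b
    have h4 := (f a).2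
    have h5 := (f b).2
    simp only [wheel] at h1
    simp only [fan, ρ]
    split_ifs <;> omega
  · intro a b hab
    apply f.injective
    have h4 := (f a).2
    have h5 := (f b).2
    have := congrArg Fin.val hab
    simp only [ρ, RelHom.coeFn_mk] at this
    apply Fin.ext
    change (f a).val = (f b).val
    split_ifs at this <;> omega

theorem main : ¬ ∃ 𝓕 : Set (Σ k : ℕ, SimpleGraph (Fin k)), 𝓕.Finite ∧
    ∀ (n : ℕ) (G : SimpleGraph (Fin n)),
      Representable G.lineGraph ↔ ∀ F ∈ 𝓕, ¬ F.2.IsContained G := by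
  rintro ⟨𝓕, hfin, h⟩
  obtain ⟨B, hB⟩ := (hfin.image Sigma.fst).bddAbove
  have h1 := wheel_not_representable (B + 5) (by omega)
  rw [h] at h1
  push Not at h1
  obtain ⟨F, hF, hc⟩ := h1
  have hk : F.1 ≤ B := hB ⟨F, hF, rfl⟩
  exact (h _ _).mp (fan_representable (B + 5) (by omega)) F hF (contained_fan F.2 (by omega) hc)

end Pool.Agent.P.MP_c3beeb_co
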