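import Pool.Agent.P.MP_c3beeb_co.MnpDefs

set_option autoImplicit false

/-! Cut and paste: first-order formulas do not see a far away second cut. -/

namespace Pool.Agent.P.MP_c3beeb_co.Mnp

open FirstOrder FirstOrder.Language Pool.Agent.P.MP_c3beeb_co

/-- realization of a formula with bound variables only -/
def Rz {V : Type} {k n : ℕ} (G : SimpleGraph V) (X : Fin k → Set V)
    (ψ : (Lang k).BoundedFormula Empty n) (x : Fin n → V) : Prop :=
  @BoundedFormula.Realize _ V (str G X) _ _ ψ default x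

/-- the variable that a term is -/
def tv {k n : ℕ} : (Lang k).Term (Empty ⊕ Fin n) → Fin n
  | .var (.inl e) => e.elim
  | .var (.inr i) => i
  | .func f _ => Empty.elim f

lemma term_eq {V : Type} {k n : ℕ} (G : SimpleGraph V) (X : Fin k → Set V)
    (t : (Lang k).Term (Empty ⊕ Fin n)) (x : Fin n → V) :
    @Term.realize _ V (str G X) _ (Sum.elim default x) t = x (tv t) := by
  match t with
  | .var (.inl e) => exact e.elim
  | .var (.inr i) => rfl
  | .func f _ => exact Empty.elim f

/-- a family of swaps that are isomorphisms away from a moving window -/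
structure Swaps {V : Type} {k : ℕ} (G H : SimpleGraph V) (X : Fin k → Set V) (M : ℕ)
    (off : V → ℕ) (s : ℕ → V → V) : Prop where
  inv : ∀ K ≤ M, ∀ v, s K (s K v) = v
  off_s : ∀ K ≤ M, ∀ v, off (s K v) = off v
  col : ∀ K ≤ M, ∀ v i, s K v ∈ X i ↔ v ∈ X i
  agree : ∀ K K', K ≤ K' → K' ≤ M → ∀ v, off v < K ∨ K' ≤ off v → s K v = s K' v
  adj : ∀ K, K + 1 ≤ M → ∀ u v, off u ≠ K → off v ≠ K → (G.Adj u v ↔ H.Adj (s K u) (s K v))

theorem game {k n : ℕ} (ψ : (Lang k).BoundedFormula Empty n) :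
    ∃ L, ∀ {V : Type} (G H : SimpleGraph V) (X : Fin k → Set V) (M : ℕ) (off : V → ℕ)
      (s : ℕ → V → V), Swaps G H X M off s → ∀ K, K + L ≤ M → ∀ x : Fin n → V,
      (∀ i, off (x i) < K ∨ K + L ≤ off (x i)) → (Rz G X ψ x ↔ Rz H X ψ (s K ∘ x)) := by
  induction ψ with
  | falsum => exact ⟨0, fun _ _ _ _ _ _ _ _ _ _ _ => Iff.rfl⟩
  | equal t₁ t₂ =>
    refine ⟨0, fun G H X M off s S K hK x _ => ?_⟩
    change @Term.realize _ _ (str G X) _ _ t₁ = @Term.realize _ _ (str G X) _ _ t₂ ↔
      @Term.realize _ _ (str H X) _ _ t₁ = @Term.realize _ _ (str H X) _ _ t₂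
    rw [term_eq, term_eq, term_eq, term_eq]
    exact (Function.LeftInverse.injective (S.inv K hK)).eq_iff.symm
  | rel r ts =>
    refine ⟨1, fun G H X M off s S K hK x hx => ?_⟩
    cases r with
    | adj =>
      change G.Adj (@Term.realize _ _ (str G X) _ _ (ts 0)) (@Term.realize _ _ (str G X) _ _ (ts 1)) ↔
        H.Adj (@Term.realize _ _ (str H X) _ _ (ts 0)) (@Term.realize _ _ (str H X) _ _ (ts 1))
      rw [term_eq, term_eq, term_eq, term_eq]
      refine S.adj K hK _ _ ?_ ?_
      · have := hx (tv (ts 0)); omega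
      · have := hx (tv (ts 1)); omega
    | mem i =>
      change @Term.realize _ _ (str G X) _ _ (ts 0) ∈ X i ↔
        @Term.realize _ _ (str H X) _ _ (ts 0) ∈ X i
      rw [term_eq, term_eq]
      exact (S.col K (by omega) _ i).symm
  | imp f₁ f₂ ih₁ ih₂ =>
    obtain ⟨L₁, h₁⟩ := ih₁
    obtain ⟨L₂, h₂⟩ := ih₂
    refine ⟨L₁ + L₂, fun G H X M off s S K hK x hx => ?_⟩
    exact imp_congr (h₁ G H X M off s S K (by omega) x fun i => by have := hx i; omega)
      (h₂ G H X M off s S K (by omega) x fun i => by have := hx i; omega)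
  | all f ih =>
    obtain ⟨L, h⟩ := ih
    refine ⟨2 * L, fun {V} G H X M off s S K hK x hx => ?_⟩
    have key : ∀ z : V, ∃ K', K' ≤ M ∧ ∀ w, off w = off z →
        (Rz G X f (Fin.snoc x w) ↔ Rz H X f (Fin.snoc (s K ∘ x) (s K' w))) := by
      intro z
      have : ∃ K', K ≤ K' ∧ K' ≤ K + L ∧ (off z < K' ∨ K' + L ≤ off z) := by
        by_cases hz : off z < K + L
        · exact ⟨K + L, by omega, le_rfl, Or.inl hz⟩
        · exact ⟨K, le_rfl, by omega, Or.inr (by omega)⟩
      obtain ⟨K', h1, h2, h3⟩ := this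
      refine ⟨K', by omega, fun w hw => ?_⟩
      rw [h G H X M off s S K' (by omega) (Fin.snoc x w) ?_, Fin.comp_snoc]
      · have : s K' ∘ x = s K ∘ x := funext fun i =>
          (S.agree K K' h1 (by omega) _ (by have := hx i; omega)).symm
        rw [this]
      · intro i
        refine Fin.lastCases ?_ (fun j => ?_) i
        · rw [Fin.snoc_last, hw]; exact h3
        · rw [Fin.snoc_castSucc]; have := hx j; omega
    change (∀ z, Rz G X f (Fin.snoc x z)) ↔ ∀ z, Rz H X f (Fin.snoc (s K ∘ x) z)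
    constructor
    · intro hG z
      obtain ⟨K', h1, h2⟩ := key z
      have := (h2 (s K' z) (S.off_s K' h1 z)).1 (hG _)
      rwa [S.inv K' h1] at this
    · intro hH z
      obtain ⟨K', -, h2⟩ := key z
      exact (h2 z rfl).2 (hH _)

theorem holds_iff {k : ℕ} (φ : (Lang k).Sentence) :
    ∃ M, ∀ {V : Type} (G H : SimpleGraph V) (X : Fin k → Set V) (off : V → ℕ)
      (s : ℕ → V → V), Swaps G H X M off s → (Holds G X φ ↔ Holds H X φ) := by
  obtain ⟨L, h⟩ := game φ
  refine ⟨L, fun G H X off s S => ?_⟩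
  have := h G H X L off s S 0 (by omega) default fun i => i.elim0
  rwa [Subsingleton.elim (s 0 ∘ default) default] at this

end Pool.Agent.P.MP_c3beeb_co.Mnp
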