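import Pool.Agent.P.MP_c3beeb_co.Main
import Pool.Agent.P.MP_c3beeb_co.MnpGame

set_option autoImplicit false

/-! Fans, fans with a segment closed up into a wheel, and the sentence for a forbidden family. -/

namespace Pool.Agent.P.MP_c3beeb_co.Mnp

open SimpleGraph FirstOrder FirstOrder.Language Pool.Agent.P.MP_c3beeb_co

/-- the fan with the path edges entering `a` and `b` exchanged -/
def cutFan (N a b : ℕ) : SimpleGraph (Fin (N + 1)) where
  Adj x y := x.val ≠ y.val ∧ (x.val = N ∨ y.val = N ∨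
    (x.val + 1 = y.val ∧ y.val ≠ a ∧ y.val ≠ b) ∨ (y.val + 1 = x.val ∧ x.val ≠ a ∧ x.val ≠ b) ∨
    (x.val + 1 = a ∧ y.val = b) ∨ (y.val + 1 = a ∧ x.val = b) ∨
    (x.val + 1 = b ∧ y.val = a) ∨ (y.val + 1 = b ∧ x.val = a))
  symm := ⟨fun x y h => by omega⟩
  loopless := ⟨fun x h => h.1 rfl⟩

/-- offset inside the two windows -/
def offs (a b M v : ℕ) : ℕ :=
  if a ≤ v ∧ v < a + M then v - a else if b ≤ v ∧ v < b + M then v - b else M

/-- the swap of the first `K` places of the two windows -/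
def swp (a b K v : ℕ) : ℕ :=
  if a ≤ v ∧ v < a + K then v - a + b else if b ≤ v ∧ v < b + K then v - b + a else v

lemma spec {a b M K v : ℕ} (h1 : a + M < b) (hK : K + 1 ≤ M) (hv : offs a b M v ≠ K) :
    (a ≤ v ∧ v < a + K ∧ swp a b K v + a = v + b) ∨ (b ≤ v ∧ v < b + K ∧ swp a b K v + b = v + a) ∨
      ((v < a ∨ (a + K < v ∧ v < b) ∨ b + K < v) ∧ swp a b K v = v) := by
  unfold offs at hv
  unfold swp
  split_ifs at hv ⊢ <;> omega

lemma swaps {k N a b M : ℕ} (h1 : a + M < b) (h2 : b + M ≤ N) (X : Fin k → Set (Fin (N + 1)))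
    (hX : ∀ u v : Fin (N + 1), a ≤ u.val → u.val < a + M → v.val + a = u.val + b →
      ∀ i, u ∈ X i ↔ v ∈ X i) :
    Swaps (cutFan N a b) (fan N) X M (fun v => offs a b M v.val)
      (fun K v => ⟨swp a b (min K M) v.val, by
        have := v.2
        unfold swp
        split_ifs <;> omega⟩) := by
  refine ⟨fun K hK v => Fin.ext ?_, fun K hK v => ?_, fun K hK v i => ?_,
    fun K K' hK hK' v hv => Fin.ext ?_, fun K hK u v hu hv => ?_⟩
  · simp only [swp, min_eq_left hK]
    split_ifs <;> omega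
  · simp only [swp, offs, min_eq_left hK]
    split_ifs <;> omega
  · by_cases c1 : a ≤ v.val ∧ v.val < a + K
    · refine (hX v _ c1.1 (by omega) ?_ i).symm
      simp only [swp, min_eq_left hK, if_pos c1]
      omega
    · by_cases c2 : b ≤ v.val ∧ v.val < b + K
      · refine hX _ v ?_ ?_ ?_ i <;> simp only [swp, min_eq_left hK, if_neg c1, if_pos c2] <;> omega
      · refine Iff.of_eq (congrArg (· ∈ X i) (Fin.ext ?_))
        simp only [swp, min_eq_left hK, if_neg c1, if_neg c2]
  · simp only [swp, offs, min_eq_left hK', min_eq_left (hK.trans hK')] at hv ⊢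
    split_ifs at hv ⊢ <;> omega
  · have h3 := spec h1 hK hu
    have h4 := spec h1 hK hv
    have := u.2
    have := v.2
    simp only [cutFan, fan, min_eq_left (Nat.le_of_succ_le hK)]
    generalize swp a b K u.val = p at *
    generalize swp a b K v.val = q at *
    generalize u.val = x at *
    generalize v.val = y at *
    constructor
    · rintro ⟨h5, h6⟩
      rcases h3 with h3 | h3 | h3 <;> rcases h4 with h4 | h4 | h4 <;>
        rcases h6 with h6 | h6 | h6 | h6 | h6 | h6 | h6 | h6 <;> omega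
    · rintro ⟨h5, h6⟩
      refine ⟨by omega, ?_⟩
      rcases h3 with h3 | h3 | h3 <;> rcases h4 with h4 | h4 | h4 <;>
        rcases h6 with h6 | h6 | h6 | h6 <;> omega

lemma representable_shadow {V W : Type} {F : SimpleGraph V} {G : SimpleGraph W} (h : F ⊑ G)
    (hG : Representable G.lineGraph) : ∃ R, Shadow F.lineGraph.Adj R := by
  obtain ⟨f⟩ := h
  obtain ⟨R, hR⟩ := shadow_of_representable hG
  let e := f.toLineGraphEmbedding
  exact ⟨fun x y => R (e x) (e y), fun h => h.symm, fun _ => hR.refl _, hR.trans,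
    fun h1 h2 => e.injective (hR.anti h1 h2), fun h => hR.tot (e.map_adj_iff.2 h),
    fun h1 h2 h3 h4 h5 => e.map_adj_iff.1
      (hR.short h1 h2 h3 (e.map_adj_iff.2 h4) fun h6 => h5 (e.injective h6))⟩

lemma wheel_cutFan {N a b : ℕ} (h1 : a + 5 ≤ b) (h2 : b ≤ N) : wheel (b - a) ⊑ cutFan N a b := by
  refine ⟨⟨⟨fun v => ⟨if v.val = b - a then N else a + v.val, by
    have := v.2
    split_ifs <;> omega⟩, ?_⟩, ?_⟩⟩
  · intro u v huv
    have := u.2
    have := v.2
    simp only [wheel] at huv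
    simp only [cutFan]
    split_ifs <;> omega
  · intro u v huv
    have := u.2
    have := v.2
    have h3 := congrArg Fin.val huv
    simp only [RelHom.coeFn_mk] at h3
    apply Fin.ext
    split_ifs at h3 <;> omega

lemma cutFan_not {N a b : ℕ} (h1 : a + 5 ≤ b) (h2 : b ≤ N) :
    ¬ Representable (cutFan N a b).lineGraph := by
  intro h
  obtain ⟨R, hR⟩ := representable_shadow (wheel_cutFan h1 h2) h
  exact no_shadow hR (b - a) (by omega) _ _ (wheel_pat (b - a) (by omega))

theorem main : ¬ ∃ (k : ℕ) (φ : (Lang k).Sentence), ∀ (n : ℕ) (G : SimpleGraph (Fin n)),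
    (∃ h, ∀ v, v ≠ h → G.Adj h v) →
      (Representable G.lineGraph ↔ ∃ X : Fin k → Set (Fin n), Holds G X φ) := by
  classical
  rintro ⟨k, φ, hφ⟩
  obtain ⟨M, hM⟩ := holds_iff φ
  set T := Fintype.card (Fin M → Fin k → Prop) with hT
  set N := (T + 1) * (M + 5) with hN
  have hN5 : M + 5 ≤ N := Nat.le_mul_of_pos_left _ (by omega)
  obtain ⟨X, hX⟩ := (hφ _ (fan N) ⟨Fin.last N, fun v hv =>
    ⟨fun h => hv (Fin.ext h.symm), Or.inl rfl⟩⟩).1 (fan_representable N (by omega))
  have hb : ∀ t : Fin (T + 1), t.val * (M + 5) + (M + 5) ≤ N := fun t => by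
    rw [hN, ← Nat.succ_mul]
    exact Nat.mul_le_mul_right _ t.2
  let pat : Fin (T + 1) → Fin M → Fin k → Prop := fun t j i =>
    ∃ u : Fin (N + 1), u.val = t.val * (M + 5) + j.val ∧ u ∈ X i
  have hp : ∃ s t : Fin (T + 1), s.val < t.val ∧ pat s = pat t := by
    obtain ⟨s, t, h1, h2⟩ := Fintype.exists_ne_map_eq_of_card_lt pat (by simp [hT])
    rcases lt_or_gt_of_ne (Fin.val_ne_of_ne h1) with h | h
    · exact ⟨s, t, h, h2⟩
    · exact ⟨t, s, h, h2.symm⟩
  obtain ⟨s, t, h1, h2⟩ := hp
  have h3 : s.val * (M + 5) + (M + 5) ≤ t.val * (M + 5) := by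
    rw [← Nat.succ_mul]
    exact Nat.mul_le_mul_right _ h1
  have h4 := hb t
  have h5 : ∀ (j : Fin M) i, pat s j i ↔ pat t j i := fun j i => by rw [h2]
  simp only [pat] at h5
  generalize s.val * (M + 5) = a at *
  generalize t.val * (M + 5) = b at *
  refine cutFan_not (N := N) (a := a) (b := b) (by omega) (by omega)
    ((hφ _ (cutFan N a b)
      ⟨Fin.last N, fun v hv => ⟨fun h => hv (Fin.ext h.symm), Or.inl rfl⟩⟩).2 ⟨X, ?_⟩)
  refine (hM _ _ X _ _ (swaps (by omega) (by omega) X fun u v hu hu' hv i => ?_)).2 hX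
  have h6 := h5 ⟨u.val - a, by omega⟩ i
  constructor
  · intro h
    obtain ⟨w, h7, h8⟩ := h6.1 ⟨u, by simp only; omega, h⟩
    rwa [show w = v from Fin.ext (by simp only at h7; omega)] at h8
  · intro h
    obtain ⟨w, h7, h8⟩ := h6.2 ⟨v, by simp only; omega, h⟩
    rwa [show w = u from Fin.ext (by simp only at h7; omega)] at h8

open Classical in
/-- the sentence that says that `F` is a subgraph -/
noncomputable def sub {m : ℕ} (F : SimpleGraph (Fin m)) : (Lang 0).Sentence :=
  Formula.iExs (Fin m) (Formula.iInf fun p : Fin m × Fin m =>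
    (if p.1 = p.2 then ⊤ else (Term.equal (.var (.inr p.1)) (.var (.inr p.2))).not) ⊓
      if F.Adj p.1 p.2 then Relations.formula₂ Sym.adj (.var (.inr p.1)) (.var (.inr p.2)) else ⊤)

lemma holds_sub {m : ℕ} (F : SimpleGraph (Fin m)) {V : Type} (G : SimpleGraph V)
    (X : Fin 0 → Set V) : Holds G X (sub F) ↔ F ⊑ G := by
  let _ := str G X
  have hr : ∀ u v : V, Structure.RelMap (L := Lang 0) Sym.adj ![u, v] ↔ G.Adj u v :=
    fun _ _ => Iff.rfl
  unfold Holds sub Sentence.Realize
  rw [Formula.realize_iExs]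
  simp only [Formula.realize_iInf, Formula.realize_inf]
  constructor
  · rintro ⟨f, hf⟩
    refine ⟨⟨⟨f, fun {u v} h => ?_⟩, fun u v h => ?_⟩⟩
    · have := (hf (u, v)).2
      rw [if_pos h, Formula.realize_rel₂] at this
      exact this
    · by_contra h1
      have := (hf (u, v)).1
      rw [if_neg h1, Formula.realize_not, Formula.realize_equal] at this
      exact this h
  · rintro ⟨f⟩
    refine ⟨f, fun p => ⟨?_, ?_⟩⟩
    · split_ifs with h
      · exact Formula.realize_top.2 trivial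
      · rw [Formula.realize_not, Formula.realize_equal]
        exact fun h1 => h (f.injective h1)
    · split_ifs with h
      · rw [Formula.realize_rel₂]
        exact f.toHom.map_adj h
      · exact Formula.realize_top.2 trivial

lemma free_sentence {𝓕 : Set (Σ k : ℕ, SimpleGraph (Fin k))} (h : 𝓕.Finite) :
    ∃ φ : (Lang 0).Sentence, ∀ {V : Type} (G : SimpleGraph V) (X : Fin 0 → Set V),
      Holds G X φ ↔ ∀ F ∈ 𝓕, ¬ F.2.IsContained G := by
  have := h.to_subtype
  refine ⟨Formula.iInf fun F : 𝓕 => (sub F.1.2).not, fun G X => ?_⟩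
  let _ := str G X
  unfold Holds Sentence.Realize
  simp only [Formula.realize_iInf, Formula.realize_not, Subtype.forall]
  exact forall₂_congr fun F _ => not_congr (holds_sub F.2 G X)

lemma colour_sentence : ∃ φ : (Lang 1).Sentence, ∀ {V : Type} (G : SimpleGraph V),
    (∃ X : Fin 1 → Set V, Holds G X φ) ↔ G.Colorable 2 := by
  classical
  refine ⟨Formula.iAlls (Fin 2) ((Relations.formula₂ Sym.adj (.var (.inr 0)) (.var (.inr 1))).imp
    ((Relations.formula₁ (Sym.mem 0) (.var (.inr 0))).iff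
      (Relations.formula₁ (Sym.mem 0) (.var (.inr 1)))).not), fun {V} G => ?_⟩
  have key : ∀ X : Fin 1 → Set V, Holds G X (Formula.iAlls (Fin 2)
      ((Relations.formula₂ Sym.adj (.var (.inr 0)) (.var (.inr 1))).imp
      ((Relations.formula₁ (Sym.mem 0) (.var (.inr 0))).iff
        (Relations.formula₁ (Sym.mem 0) (.var (.inr 1)))).not)) ↔
      ∀ x : Fin 2 → V, G.Adj (x 0) (x 1) → ¬ (x 0 ∈ X 0 ↔ x 1 ∈ X 0) := by
    intro X
    let _ := str G X
    unfold Holds Sentence.Realize
    rw [Formula.realize_iAlls]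
    simp only [Formula.realize_imp, Formula.realize_not, Formula.realize_iff, Formula.realize_rel₂,
      Formula.realize_rel₁]
    exact Iff.rfl
  simp only [key]
  constructor
  · rintro ⟨X, hX⟩
    refine ⟨Coloring.mk (fun v => if v ∈ X 0 then 0 else 1) fun {u v} h => ?_⟩
    have := hX ![u, v] h
    simp only [Matrix.cons_val_zero, Matrix.cons_val_one] at this
    by_cases h1 : u ∈ X 0 <;> by_cases h2 : v ∈ X 0 <;> simp_all
  · rintro ⟨c⟩
    refine ⟨fun _ => {v | c v = 0}, fun x h h1 => c.valid h ?_⟩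
    simp only [Set.mem_ofPred_eq] at h1
    omega

end Pool.Agent.P.MP_c3beeb_co.Mnp
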