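import Mathlib

set_option autoImplicit false

namespace Pool.Agent.P.MP_c3beeb_co

/-- relation symbols: one binary symbol and `k` unary symbols -/
inductive Sym (k : ℕ) : ℕ → Type
  | adj : Sym k 2
  | mem (i : Fin k) : Sym k 1

/-- the first-order language of graphs with `k` distinguished vertex sets -/
def Lang (k : ℕ) : FirstOrder.Language where
  Functions _ := Empty
  Relations := Sym k

/-- the graph `G` with the vertex sets `X i`, as a structure -/
@[reducible] noncomputable def str {V : Type} {k : ℕ} (G : SimpleGraph V) (X : Fin k → Set V) :
    (Lang k).Structure V where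
  funMap f _ := Empty.elim f
  RelMap r := Sym.rec (motive := fun n _ => (Fin n → V) → Prop)
    (fun x => G.Adj (x 0) (x 1)) (fun i x => x 0 ∈ X i) r

/-- the sentence `φ` holds in the graph `G` with the vertex sets `X i` -/
def Holds {V : Type} {k : ℕ} (G : SimpleGraph V) (X : Fin k → Set V) (φ : (Lang k).Sentence) :
    Prop :=
  @FirstOrder.Language.Sentence.Realize _ V (str G X) φ

end Pool.Agent.P.MP_c3beeb_co
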