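import Pool.Agent.P.MP_c3beeb_co.Words

set_option autoImplicit false

namespace Pool.Agent.P.MP_c3beeb_co

/-- cyclic successor relation on `0, …, n - 1` -/
def Sc (n i j : ℕ) : Prop := i + 1 = j ∨ (i + 1 = n ∧ j = 0)

/-- the adjacency pattern of the line graph of the wheel with `n` spokes -/
structure Pat {V : Type} (A : V → V → Prop) (n : ℕ) (s e : ℕ → V) : Prop where
  hss : ∀ i < n, ∀ j < n, i ≠ j → A (s i) (s j)
  hsi : ∀ i < n, ∀ j < n, s i = s j → i = j
  hes : ∀ i < n, ∀ j < n, (A (e i) (s j) ↔ (j = i ∨ Sc n i j))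
  hne : ∀ i < n, ∀ j < n, e i ≠ s j
  hee : ∀ i < n, ∀ j < n, (A (e i) (e j) ↔ (Sc n i j ∨ Sc n j i))
  hei : ∀ i < n, ∀ j < n, e i = e j → i = j

section
variable {V : Type} {A R : V → V → Prop}

/-- local trichotomy for a vertex `z` adjacent to exactly `a`, `b` among a clique -/
lemma between_A (H : Shadow A R) {z a b c : V} (hza : R z a) (hAb : A z b) (hc : ¬ A z c)
    (hzc : z ≠ c) (hbc : A b c) (hac : R a c) : R b c := by
  rcases H.tot hbc with h | h
  · exact h
  · exact absurd (H.short (H.refl z) (H.trans hza hac) h hAb hzc) hc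

lemma between_B (H : Shadow A R) {z a b c : V} (hbz : R b z) (hAa : A z a) (hc : ¬ A z c)
    (hzc : z ≠ c) (hbc : A b c) (hac : R a c) : R b c := by
  rcases H.tot hbc with h | h
  · exact h
  · exact absurd (H.symm (H.short hac (H.trans h hbz) (H.refl z) (H.symm hAa) hzc.symm)) hc

lemma core (H : Shadow A R) (n : ℕ) (hn : 5 ≤ n) (s e : ℕ → V) (P : Pat A n s e)
    (h0 : ∀ j < n, R (s 0) (s j)) (hl : ∀ j < n, R (s j) (s (n - 1))) : False := by
  have aes : ∀ i, i + 1 < n → A (e i) (s i) ∧ A (e i) (s (i + 1)) := fun i hi =>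
    ⟨(P.hes i (by omega) i (by omega)).mpr (Or.inl rfl),
      (P.hes i (by omega) (i + 1) hi).mpr (Or.inr (Or.inl rfl))⟩
  have nes : ∀ i < n, ∀ j < n, j ≠ i → i + 1 ≠ j → (i + 1 ≠ n ∨ j ≠ 0) → ¬ A (e i) (s j) := by
    intro i hi j hj h1 h2 h3 h
    rcases (P.hes i hi j hj).mp h with h | h | h <;> omega
  have nee : ∀ i < n, ∀ j < n, i + 1 ≠ j → j + 1 ≠ i → (i + 1 ≠ n ∨ j ≠ 0) →
      (j + 1 ≠ n ∨ i ≠ 0) → ¬ A (e i) (e j) := by
    intro i hi j hj h1 h2 h3 h4 h
    rcases (P.hee i hi j hj).mp h with (h | h) | (h | h) <;> omega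
  have aee : ∀ i, i + 1 < n → A (e i) (e (i + 1)) := fun i hi =>
    (P.hee i (by omega) (i + 1) hi).mpr (Or.inl (Or.inl rfl))
  -- every inner rim edge is a source or a sink on its two spokes
  have typ : ∀ i, i + 1 < n → (R (e i) (s i) ∧ R (e i) (s (i + 1))) ∨
      (R (s i) (e i) ∧ R (s (i + 1)) (e i)) := by
    intro i hi
    obtain ⟨a1, a2⟩ := aes i hi
    rcases H.tot a1 with h1 | h1 <;> rcases H.tot a2 with h2 | h2
    · exact Or.inl ⟨h1, h2⟩
    · exfalso
      -- s (i+1) before e i before s i
      by_cases hi0 : i = 0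
      · subst hi0
        have := P.hsi _ (by omega) _ (by omega) (H.anti (H.trans h2 h1) (h0 _ hi))
        omega
      · exact nes i (by omega) 0 (by omega) (by omega) (by omega) (by omega)
          (H.symm (H.short (H.refl _) (H.trans (h0 _ hi) h2) h1
            (P.hss 0 (by omega) i (by omega) (by omega)) (P.hne i (by omega) 0 (by omega)).symm))
    · exfalso
      by_cases hi0 : i = 0
      · subst hi0
        exact nes 0 (by omega) (n - 1) (by omega) (by omega) (by omega) (by omega)
          (H.short h1 (H.trans h2 (hl _ hi)) (H.refl _)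
            (P.hss 0 (by omega) (n - 1) (by omega) (by omega)) (P.hne 0 (by omega) _ (by omega)))
      · exact nes i (by omega) 0 (by omega) (by omega) (by omega) (by omega)
          (H.symm (H.short (H.refl _) (H.trans (h0 i (by omega)) h1) h2
            (P.hss 0 (by omega) (i + 1) hi (by omega)) (P.hne i (by omega) 0 (by omega)).symm))
    · exact Or.inr ⟨h1, h2⟩
  have mono : ∀ i, i < n → ∀ j < n, i < j → R (s i) (s j) := by
    intro i
    induction i with
    | zero => intro _ j hj _; exact h0 j hj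
    | succ i ih =>
      intro hi j hj hij
      have hc := ih (by omega) j hj (by omega)
      have hnc := nes i (by omega) j hj (by omega) (by omega) (by omega)
      have hne := P.hne i (by omega) j hj
      have hbc := P.hss (i + 1) hi j hj (by omega)
      rcases typ i hi with h | h
      · exact between_A H h.1 (aes i hi).2 hnc hne hbc hc
      · exact between_B H h.2 (aes i hi).1 hnc hne hbc hc
  have stepA : ∀ i, i + 2 < n → R (e i) (s i) → R (e (i + 1)) (s (i + 1)) ∧ R (e i) (e (i + 1)) := by
    intro i hi h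
    have hm := mono i (by omega) (i + 1) (by omega) (by omega)
    have hn1 := nes (i + 1) (by omega) i (by omega) (by omega) (by omega) (by omega)
    have hne := P.hne (i + 1) (by omega) i (by omega)
    rcases typ (i + 1) (by omega) with h' | h'
    · refine ⟨h'.1, ?_⟩
      rcases H.tot (aee i (by omega)) with h2 | h2
      · exact h2
      · exact absurd (H.short (H.refl _) (H.trans h2 h) hm (aes (i + 1) (by omega)).1 hne) hn1
    · exact absurd (H.symm (H.short h (H.trans hm h'.1) (H.refl _) (aee i (by omega)) hne.symm)) hn1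
  have stepB : ∀ i, i + 2 < n → ¬ R (e (i + 1)) (s (i + 1)) →
      ¬ R (e i) (s i) ∧ R (e i) (e (i + 1)) := by
    intro i hi h
    have h1 : ¬ R (e i) (s i) := fun h' => h (stepA i hi h').1
    refine ⟨h1, ?_⟩
    rcases H.tot (aee i (by omega)) with h2 | h2
    · exact h2
    · have hb := (typ (i + 1) (by omega)).resolve_left fun h' => h h'.1
      have hm := mono (i + 1) (by omega) (i + 2) (by omega) (by omega)
      exact absurd (H.symm (H.short hm (H.trans hb.2 h2) (H.refl _)
        (H.symm (aes i (by omega)).2) (P.hne i (by omega) (i + 2) (by omega)).symm))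
        (nes i (by omega) (i + 2) (by omega) (by omega) (by omega) (by omega))
  have chainA : ∀ i d, i + d + 1 < n → R (e i) (s i) →
      R (e (i + d)) (s (i + d)) ∧ R (e i) (e (i + d)) := by
    intro i d
    induction d with
    | zero => intro _ h; exact ⟨h, H.refl _⟩
    | succ d ih =>
      intro hd h
      obtain ⟨h1, h2⟩ := ih (by omega) h
      obtain ⟨h3, h4⟩ := stepA (i + d) (by omega) h1
      exact ⟨h3, H.trans h2 h4⟩
  have chainB : ∀ i d, i + d + 1 < n → ¬ R (e (i + d)) (s (i + d)) →
      ¬ R (e i) (s i) ∧ R (e i) (e (i + d)) := by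
    intro i d
    induction d with
    | zero => intro _ h; exact ⟨h, H.refl _⟩
    | succ d ih =>
      intro hd h
      obtain ⟨h3, h4⟩ := stepB (i + d) (by omega) h
      obtain ⟨h1, h2⟩ := ih (by omega) h3
      exact ⟨h1, H.trans h2 h4⟩
  have az0 : A (e (n - 1)) (e 0) :=
    (P.hee _ (by omega) _ (by omega)).mpr (Or.inl (Or.inr ⟨by omega, rfl⟩))
  have azl : A (e (n - 2)) (e (n - 1)) :=
    (P.hee _ (by omega) _ (by omega)).mpr (Or.inl (Or.inl (by omega)))
  have B0 : ¬ R (e 0) (s 0) → R (e (n - 1)) (e 0) := by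
    intro h
    have hb := (typ 0 (by omega)).resolve_left fun h' => h h'.1
    rcases H.tot az0 with h2 | h2
    · exact h2
    · exact absurd (H.symm (H.short (h0 1 (by omega)) (H.trans hb.2 h2) (H.refl _)
        (H.symm ((P.hes _ (by omega) _ (by omega)).mpr (Or.inr (Or.inr ⟨by omega, rfl⟩))))
        (P.hne _ (by omega) 1 (by omega)).symm))
        (nes _ (by omega) 1 (by omega) (by omega) (by omega) (by omega))
  have Al : R (e (n - 2)) (s (n - 2)) → R (e (n - 2)) (e (n - 1)) := by
    intro h
    rcases H.tot azl with h2 | h2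
    · exact h2
    · exact absurd (H.short (H.refl _) (H.trans h2 h) (hl _ (by omega))
        ((P.hes _ (by omega) _ (by omega)).mpr (Or.inl rfl)) (P.hne _ (by omega) _ (by omega)))
        (nes _ (by omega) (n - 2) (by omega) (by omega) (by omega) (by omega))
  have n02 : ¬ A (e 0) (e 2) :=
    nee 0 (by omega) 2 (by omega) (by omega) (by omega) (by omega) (by omega)
  have d02 : e 0 ≠ e 2 := fun h => by have := P.hei _ (by omega) _ (by omega) h; omega
  by_cases hA0 : R (e 0) (s 0)
  · obtain ⟨h1, h2⟩ := chainA 0 2 (by omega) hA0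
    obtain ⟨h3, h4⟩ := chainA 2 (n - 4) (by omega) h1
    rw [show 2 + (n - 4) = n - 2 by omega] at h3 h4
    exact n02 (H.short (H.refl _) h2 (H.trans h4 (Al h3)) (H.symm az0) d02)
  · by_cases hAl : R (e (n - 2)) (s (n - 2))
    · have hex : ∃ j, j + 2 < n ∧ ¬ R (e j) (s j) ∧ R (e (j + 1)) (s (j + 1)) := by
        by_contra hcon
        push Not at hcon
        have : ∀ j, j + 1 < n → ¬ R (e j) (s j) := by
          intro j
          induction j with
          | zero => intro _; exact hA0
          | succ j ih => intro hj; exact hcon j (by omega) (ih (by omega))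
        exact this (n - 2) (by omega) hAl
      obtain ⟨j, hj, hj1, hj2⟩ := hex
      obtain ⟨-, h4⟩ := chainA (j + 1) (n - 3 - j) (by omega) hj2
      rw [show j + 1 + (n - 3 - j) = n - 2 by omega] at h4
      have h5 := H.trans h4 (Al hAl)
      obtain ⟨-, h6⟩ := chainB 0 j (by omega) (by simpa using hj1)
      rw [Nat.zero_add] at h6
      have h7 := H.trans (B0 hA0) h6
      have h8 := H.symm (aee j (by omega))
      by_cases hj0 : j = 0
      · subst hj0
        exact nee 1 (by omega) (n - 1) (by omega) (by omega) (by omega) (by omega) (by omega)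
          (H.short (H.refl _) h5 h7 h8
            (fun h => by have := P.hei _ (by omega) _ (by omega) h; omega))
      · exact nee (n - 1) (by omega) j (by omega) (by omega) (by omega) (by omega) (by omega)
          (H.short h5 h7 (H.refl _) h8
            (fun h => by have := P.hei _ (by omega) _ (by omega) h; omega))
    · have hb := (typ (n - 2) (by omega)).resolve_left fun h' => hAl h'.1
      rw [show n - 2 + 1 = n - 1 by omega] at hb
      obtain ⟨h3, h4⟩ := chainB 2 (n - 4) (by omega)
        (by rw [show 2 + (n - 4) = n - 2 by omega]; exact hAl)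
      rw [show 2 + (n - 4) = n - 2 by omega] at h4
      obtain ⟨-, h2⟩ := chainB 0 2 (by omega) h3
      exact n02 (H.short (B0 hA0) h2 h4 (H.symm azl) d02)

/-- the core statement with the hypotheses reduced to the position of the first spoke -/
lemma core' (H : Shadow A R) (n : ℕ) (hn : 5 ≤ n) (s e : ℕ → V) (P : Pat A n s e)
    (hz1 : R (s 0) (e (n - 1))) (hz2 : R (e (n - 1)) (s (n - 1)))
    (h0 : ∀ j < n, R (s 0) (s j)) : False := by
  refine core H n hn s e P h0 (fun j hj => ?_)
  by_cases h1 : j = n - 1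
  · rw [h1]; exact H.refl _
  by_cases h2 : j = 0
  · rw [h2]; exact h0 _ (by omega)
  rcases H.tot (P.hss j hj (n - 1) (by omega) h1) with h | h
  · exact h
  · exfalso
    have := H.short hz1 (H.trans hz2 h) (H.refl _) (P.hss 0 (by omega) j hj (Ne.symm h2))
      (P.hne _ (by omega) j hj)
    rcases (P.hes _ (by omega) j hj).mp this with h | h | h <;> omega

lemma Pat.reindex {n : ℕ} {s e : ℕ → V} (P : Pat A n s e) (φ ψ : ℕ → ℕ)
    (hφ : ∀ i < n, φ i < n) (hψ : ∀ i < n, ψ i < n)
    (iφ : ∀ i < n, ∀ j < n, φ i = φ j → i = j) (iψ : ∀ i < n, ∀ j < n, ψ i = ψ j → i = j)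
    (h1 : ∀ i < n, ∀ j < n, ((φ j = ψ i ∨ Sc n (ψ i) (φ j)) ↔ (j = i ∨ Sc n i j)))
    (h2 : ∀ i < n, ∀ j < n, ((Sc n (ψ i) (ψ j) ∨ Sc n (ψ j) (ψ i)) ↔ (Sc n i j ∨ Sc n j i))) :
    Pat A n (fun i => s (φ i)) (fun i => e (ψ i)) where
  hss i hi j hj hij := P.hss _ (hφ i hi) _ (hφ j hj) fun h => hij (iφ i hi j hj h)
  hsi i hi j hj h := iφ i hi j hj (P.hsi _ (hφ i hi) _ (hφ j hj) h)
  hes i hi j hj := (P.hes _ (hψ i hi) _ (hφ j hj)).trans (h1 i hi j hj)
  hne i hi j hj := P.hne _ (hψ i hi) _ (hφ j hj)
  hee i hi j hj := (P.hee _ (hψ i hi) _ (hψ j hj)).trans (h2 i hi j hj)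
  hei i hi j hj h := iψ i hi j hj (P.hei _ (hψ i hi) _ (hψ j hj) h)

lemma first_zero (H : Shadow A R) (n : ℕ) (hn : 5 ≤ n) (s e : ℕ → V) (P : Pat A n s e)
    (h0 : ∀ j < n, R (s 0) (s j)) : False := by
  have a00 : A (e 0) (s 0) := (P.hes _ (by omega) _ (by omega)).mpr (Or.inl rfl)
  have a01 : A (e 0) (s 1) := (P.hes _ (by omega) _ (by omega)).mpr (Or.inr (Or.inl rfl))
  have al0 : A (e (n - 1)) (s 0) :=
    (P.hes _ (by omega) _ (by omega)).mpr (Or.inr (Or.inr ⟨by omega, rfl⟩))
  have all : A (e (n - 1)) (s (n - 1)) := (P.hes _ (by omega) _ (by omega)).mpr (Or.inl rfl)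
  have n0l : ¬ A (e 0) (s (n - 1)) := fun h => by
    rcases (P.hes _ (by omega) _ (by omega)).mp h with h | h | h <;> omega
  have nl1 : ¬ A (e (n - 1)) (s 1) := fun h => by
    rcases (P.hes _ (by omega) _ (by omega)).mp h with h | h | h <;> omega
  have a1l : A (s 1) (s (n - 1)) := P.hss _ (by omega) _ (by omega) (by omega)
  by_cases hC : R (s 0) (e (n - 1)) ∧ R (e (n - 1)) (s (n - 1))
  · exact core' H n hn s e P hC.1 hC.2 h0
  by_cases hC' : R (s 0) (e 0) ∧ R (e 0) (s 1)
  · have P' := P.reindex (fun i => if i = 0 then 0 else n - i) (fun i => n - 1 - i)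
      (fun i hi => by split_ifs <;> omega) (fun i hi => by omega)
      (fun i hi j hj => by split_ifs <;> omega) (fun i hi j hj => by omega)
      (fun i hi j hj => by
        unfold Sc
        by_cases h : j = 0
        · rw [if_pos h]; omega
        · rw [if_neg h]; omega)
      (fun i hi j hj => by unfold Sc; omega)
    refine core' H n hn _ _ P' ?_ ?_ ?_
    · simpa using hC'.1
    · rw [if_neg (by omega), show n - (n - 1) = 1 by omega]
      simpa using hC'.2
    · intro j hj
      rw [if_pos rfl]
      apply h0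
      split_ifs <;> omega
  have r1 : R (s 1) (s (n - 1)) := by
    rcases H.tot a00 with h | h
    · exact between_A H h a01 n0l (P.hne _ (by omega) _ (by omega)) a1l (h0 _ (by omega))
    · rcases H.tot a01 with h' | h'
      · exact absurd ⟨h, h'⟩ hC'
      · exact between_B H h' a00 n0l (P.hne _ (by omega) _ (by omega)) a1l (h0 _ (by omega))
  have r2 : R (s (n - 1)) (s 1) := by
    rcases H.tot al0 with h | h
    · exact between_A H h all nl1 (P.hne _ (by omega) _ (by omega)) (H.symm a1l) (h0 _ (by omega))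
    · rcases H.tot all with h' | h'
      · exact absurd ⟨h, h'⟩ hC
      · exact between_B H h' al0 nl1 (P.hne _ (by omega) _ (by omega)) (H.symm a1l)
          (h0 _ (by omega))
  have := P.hsi _ (by omega) _ (by omega) (H.anti r1 r2)
  omega

theorem no_shadow (H : Shadow A R) (n : ℕ) (hn : 5 ≤ n) (s e : ℕ → V) (P : Pat A n s e) :
    False := by
  have hex : ∀ k, k < n → ∃ m ≤ k, ∀ j ≤ k, R (s m) (s j) := by
    intro k
    induction k with
    | zero => intro _; exact ⟨0, le_rfl, fun j hj => by rw [Nat.le_zero.mp hj]; exact H.refl _⟩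
    | succ k ih =>
      intro hk
      obtain ⟨m, hm, h⟩ := ih (by omega)
      rcases H.tot (P.hss m (by omega) (k + 1) hk (by omega)) with h' | h'
      · refine ⟨m, by omega, fun j hj => ?_⟩
        rcases Nat.lt_or_ge j (k + 1) with h2 | h2
        · exact h j (by omega)
        · rw [show j = k + 1 by omega]; exact h'
      · refine ⟨k + 1, le_rfl, fun j hj => ?_⟩
        rcases Nat.lt_or_ge j (k + 1) with h2 | h2
        · exact H.trans h' (h j (by omega))
        · rw [show j = k + 1 by omega]; exact H.refl _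
  obtain ⟨m, hm, h⟩ := hex (n - 1) (by omega)
  have P' := P.reindex (fun i => if m + i < n then m + i else m + i - n)
    (fun i => if m + i < n then m + i else m + i - n)
    (fun i hi => by split_ifs <;> omega) (fun i hi => by split_ifs <;> omega)
    (fun i hi j hj => by split_ifs <;> omega) (fun i hi j hj => by split_ifs <;> omega)
    (fun i hi j hj => by unfold Sc; split_ifs <;> omega)
    (fun i hi j hj => by unfold Sc; split_ifs <;> omega)
  refine first_zero H n hn _ _ P' fun j hj => ?_
  rw [if_pos (by omega), Nat.add_zero]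
  apply h
  split_ifs <;> omega

end

end Pool.Agent.P.MP_c3beeb_co
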