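import Pool.Agent.P.MP_c3beeb_co.Words

set_option autoImplicit false

/-! A counting obstruction: a closed strip of triangles has a non-representable line graph. -/

namespace Pool.Agent.P.MP_c3beeb_co.Deg4

open Classical Pool.Agent.P.MP_c3beeb_co

section
variable {V : Type} {A R : V → V → Prop}

/-- indicator of a descent -/
noncomputable def dsc (R : V → V → Prop) (x y : V) : ℕ := if R x y then 0 else 1

lemma dsc_add (H : Shadow A R) (hi : ∀ x, ¬ A x x) {x y : V} (h : A x y) :
    dsc R x y + dsc R y x = 1 := by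
  unfold dsc
  have h1 := H.tot h
  have h2 : ¬ (R x y ∧ R y x) := fun h' => hi x (by rwa [← H.anti h'.1 h'.2] at h)
  by_cases a : R x y <;> by_cases b : R y x <;> simp_all

lemma dsc_tri (H : Shadow A R) (hi : ∀ x, ¬ A x x) {x y z : V} (h1 : A x y) (h2 : A y z)
    (h3 : A z x) : 1 ≤ dsc R x y + dsc R y z + dsc R z x ∧
      dsc R x y + dsc R y z + dsc R z x ≤ 2 := by
  have key : ∀ {x y z : V}, A x y → 1 ≤ dsc R x y + dsc R y z + dsc R z x := by
    intro x y z h
    unfold dsc
    split_ifs with a b c <;> try omega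
    exact absurd (by rwa [← H.anti a (H.trans b c)] at h) (hi x)
  have k1 := key (z := z) h1
  have k2 := key (z := x) (H.symm h2)
  have := dsc_add H hi h1
  have := dsc_add H hi h2
  have := dsc_add H hi h3
  omega

lemma dsc_quad_aux (H : Shadow A R) (hi : ∀ x, ¬ A x x) {a x b y : V} (h1 : A a x) (h2 : A x b)
    (h3 : A b y) (h4 : A y a) (hab : a ≠ b) (hn : ¬ A a b) :
    2 ≤ dsc R a x + dsc R x b + dsc R b y + dsc R y a := by
  unfold dsc
  split_ifs with p q r s <;> try omega
  · exact absurd (by rwa [← H.anti p (H.trans q (H.trans r s))] at h1) (hi a)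
  · exact absurd (H.short (H.refl a) (H.trans p q) r (H.symm h4) hab) hn
  · rename_i s
    exact absurd (H.short s (H.trans p q) (H.refl b) (H.symm h3) hab) hn
  · rename_i r s
    exact absurd (H.symm (H.short (H.refl b) (H.trans r s) p (H.symm h2) hab.symm)) hn
  · rename_i q r s
    exact absurd (H.symm (H.short q (H.trans r s) (H.refl a) (H.symm h1) hab.symm)) hn

lemma dsc_dia (H : Shadow A R) (hi : ∀ x, ¬ A x x) {a x b y : V} (h1 : A a x) (h2 : A b x)
    (h3 : A b y) (h4 : A a y) (hab : a ≠ b) (hn : ¬ A a b) :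
    dsc R y a + dsc R a x = dsc R y b + dsc R b x := by
  have k1 := dsc_quad_aux H hi h1 (H.symm h2) h3 (H.symm h4) hab hn
  have k2 := dsc_quad_aux H hi h4 (H.symm h3) h2 (H.symm h1) hab hn
  have := dsc_add H hi h1
  have := dsc_add H hi h2
  have := dsc_add H hi h3
  have := dsc_add H hi h4
  omega

/-- the adjacency pattern of the line graph of a closed strip of triangles -/
structure Strip (A : V → V → Prop) (n : ℕ) (a b : ℕ → V) : Prop where
  pa : ∀ i, a (i + n) = a i
  pb : ∀ i, b (i + n) = b i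
  aa : ∀ i, A (a i) (a (i + 1))
  ab0 : ∀ i, A (a i) (b i)
  ab1 : ∀ i, A (a (i + 1)) (b i)
  ab2 : ∀ i, A (a (i + 2)) (b i)
  ab3 : ∀ i, A (a i) (b (i + 1))
  bb : ∀ i, A (b i) (b (i + 2))
  naa : ∀ i, a i ≠ a (i + 2) ∧ ¬ A (a i) (a (i + 2))
  nbb : ∀ i, b i ≠ b (i + 1) ∧ ¬ A (b i) (b (i + 1))
  nba : ∀ i, a (i + 3) ≠ b i ∧ ¬ A (a (i + 3)) (b i)

lemma sum_shift (f : ℕ → ℕ) (n : ℕ) (h : f n = f 0) :
    ∑ i ∈ Finset.range n, f (i + 1) = ∑ i ∈ Finset.range n, f i := by
  have h1 := Finset.sum_range_succ f n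
  have h2 := Finset.sum_range_succ' f n
  omega

theorem no_strip (H : Shadow A R) (hi : ∀ x, ¬ A x x) (n : ℕ) (hn : 0 < n) (a b : ℕ → V)
    (S : Strip A n a b) : False := by
  let w : ℕ → ℕ := fun i =>
    dsc R (a (i + 1)) (b i) + dsc R (b i) (a (i + 2)) + dsc R (a (i + 2)) (a (i + 1))
  let s : ℕ → ℕ := fun i => if w i = 1 then dsc R (a (i + 1)) (b i) else dsc R (b i) (a (i + 1))
  let t : ℕ → ℕ := fun i => if w i = 1 then dsc R (b i) (b (i + 2)) else dsc R (b (i + 2)) (b i)
  let p : ℕ → ℕ := fun i =>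
    if w i = 1 then dsc R (b (i + 2)) (a (i + 2)) else dsc R (a (i + 2)) (b (i + 2))
  let q : ℕ → ℕ := fun i =>
    if w i = 1 then dsc R (a (i + 2)) (a (i + 1)) else dsc R (a (i + 1)) (a (i + 2))
  have hw : ∀ i, w i = 1 ∨ w i = 2 := by
    intro i
    have := dsc_tri H hi (S.ab1 i) (H.symm (S.ab2 i)) (H.symm (S.aa (i + 1)))
    simp only [w]
    omega
  -- the three diamonds identities at the vertex `i + 2`
  have d1 : ∀ i, dsc R (b (i + 2)) (a (i + 1)) + dsc R (a (i + 1)) (a (i + 2)) =
      dsc R (b (i + 2)) (a (i + 3)) + dsc R (a (i + 3)) (a (i + 2)) := fun i =>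
    dsc_dia H hi (S.aa (i + 1)) (H.symm (S.aa (i + 2))) (S.ab1 (i + 2)) (S.ab3 (i + 1))
      (S.naa (i + 1)).1 (S.naa (i + 1)).2
  have d2 : ∀ i, dsc R (b (i + 2)) (a (i + 3)) + dsc R (a (i + 3)) (a (i + 2)) =
      dsc R (b (i + 2)) (b i) + dsc R (b i) (a (i + 2)) := fun i =>
    dsc_dia H hi (H.symm (S.aa (i + 2))) (H.symm (S.ab2 i)) (S.bb i) (S.ab1 (i + 2))
      (S.nba i).1 (S.nba i).2
  have d3 : ∀ i, dsc R (a (i + 2)) (b i) + dsc R (b i) (a (i + 1)) =
      dsc R (a (i + 2)) (b (i + 1)) + dsc R (b (i + 1)) (a (i + 1)) := fun i =>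
    dsc_dia H hi (H.symm (S.ab1 i)) (H.symm (S.ab0 (i + 1))) (H.symm (S.ab1 (i + 1)))
      (H.symm (S.ab2 i)) (S.nbb i).1 (S.nbb i).2
  have d4 : ∀ i, dsc R (a (i + 2)) (b (i + 1)) + dsc R (b (i + 1)) (a (i + 1)) =
      dsc R (a (i + 2)) (b (i + 2)) + dsc R (b (i + 2)) (a (i + 1)) := fun i =>
    dsc_dia H hi (H.symm (S.ab0 (i + 1))) (H.symm (S.ab3 (i + 1))) (H.symm (S.ab0 (i + 2)))
      (H.symm (S.ab1 (i + 1))) (S.nbb (i + 1)).1 (S.nbb (i + 1)).2
  have hstar : ∀ i, s i + t i + p i + q i = 1 := by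
    intro i
    have e1 := d1 i
    have e2 := d2 i
    have e3 := d3 i
    have e4 := d4 i
    have e5 := hw i
    have c1 := dsc_add H hi (S.ab1 i)
    have c2 := dsc_add H hi (S.bb i)
    have c3 := dsc_add H hi (S.ab0 (i + 2))
    have c4 := dsc_add H hi (S.aa (i + 1))
    have c5 := dsc_add H hi (S.ab2 i)
    have c6 := dsc_add H hi (S.ab3 (i + 1))
    simp only [s, t, p, q, w] at *
    simp only [show i + 1 + 1 = i + 2 from rfl] at *
    split_ifs <;> omega
  have hflip : ∀ i, w i + w (i + 1) = 3 := by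
    intro i
    have e1 := d1 i
    have e3 := d3 i
    have e4 := d4 i
    have f3 := d3 (i + 1)
    have c1 := dsc_add H hi (S.ab1 i)
    have c3 := dsc_add H hi (S.ab0 (i + 2))
    have c4 := dsc_add H hi (S.aa (i + 1))
    have c5 := dsc_add H hi (S.ab2 i)
    have c6 := dsc_add H hi (S.ab3 (i + 1))
    have c7 := dsc_add H hi (S.aa (i + 2))
    have c8 := dsc_add H hi (S.ab1 (i + 2))
    have c9 := dsc_add H hi (S.ab1 (i + 1))
    have c10 := dsc_add H hi (S.ab2 (i + 1))
    simp only [w]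
    simp only [show i + 1 + 1 = i + 2 from rfl, show i + 1 + 2 = i + 3 from rfl] at *
    omega
  have htri : ∀ i, p i + q (i + 1) + s (i + 2) = 1 := by
    intro i
    have g0 := hw i
    have g1 := hflip i
    have g2 := hflip (i + 1)
    have f3 := d3 (i + 1)
    have c3 := dsc_add H hi (S.ab0 (i + 2))
    have c7 := dsc_add H hi (S.aa (i + 2))
    have c8 := dsc_add H hi (S.ab1 (i + 2))
    have c9 := dsc_add H hi (S.ab1 (i + 1))
    have c10 := dsc_add H hi (S.ab2 (i + 1))
    have hw1 : w (i + 1) = dsc R (a (i + 2)) (b (i + 1)) + dsc R (b (i + 1)) (a (i + 3)) +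
      dsc R (a (i + 3)) (a (i + 2)) := rfl
    simp only [s, p, q]
    simp only [show i + 1 + 1 = i + 2 from rfl, show i + 1 + 2 = i + 3 from rfl] at *
    split_ifs <;> omega
  have wper : ∀ i, w (i + n) = w i := by
    intro i
    simp only [w]
    rw [show i + n + 1 = i + 1 + n by omega, show i + n + 2 = i + 2 + n by omega, S.pa, S.pa, S.pb]
  have qper : ∀ i, q (i + n) = q i := by
    intro i
    simp only [q, wper]
    rw [show i + n + 1 = i + 1 + n by omega, show i + n + 2 = i + 2 + n by omega, S.pa, S.pa]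
  have sper : ∀ i, s (i + n) = s i := by
    intro i
    simp only [s, wper]
    rw [show i + n + 1 = i + 1 + n by omega, S.pa, S.pb]
  have tper : ∀ i, t (i + n) = t i := by
    intro i
    simp only [t, wper]
    rw [show i + n + 2 = i + 2 + n by omega, S.pb, S.pb]
  have hq := sum_shift q n (by simpa using qper 0)
  have hs1 := sum_shift s n (by simpa using sper 0)
  have hs2 := sum_shift (fun i => s (i + 1)) n (by
    show s (n + 1) = s (0 + 1)
    rw [add_comm n 1, sper])
  have S1 : ∑ i ∈ Finset.range n, (s i + t i + p i + q i) = n := by simp [hstar]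
  have S2 : ∑ i ∈ Finset.range n, (p i + q (i + 1) + s (i + 1 + 1)) = n := by
    simp [show ∀ i, s (i + 1 + 1) = s (i + 2) from fun _ => rfl, htri]
  simp only [Finset.sum_add_distrib] at S1 S2
  have ht0 : ∑ i ∈ Finset.range n, t i = 0 := by omega
  have ht : ∀ i, t i = 0 := by
    intro i
    induction i using Nat.strong_induction_on with
    | _ i ih =>
      by_cases h : i < n
      · exact Finset.sum_eq_zero_iff.mp ht0 i (Finset.mem_range.mpr h)
      · rw [show i = i - n + n by omega, tper]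
        exact ih _ (by omega)
  have hw2 : ∀ k, w (2 * k) = w 0 := by
    intro k
    induction k with
    | zero => rfl
    | succ k ih =>
      have := hflip (2 * k)
      have := hflip (2 * k + 1)
      rw [show 2 * (k + 1) = 2 * k + 1 + 1 by ring]
      omega
  have hb : b (2 + 2 * (n - 1)) = b 0 := by
    rw [show 2 + 2 * (n - 1) = 0 + n + n by omega, S.pb, S.pb]
  have hz : ∀ {x y : V}, dsc R x y = 0 → R x y := by
    intro x y h
    unfold dsc at h
    by_contra h'
    simp [h'] at h
  by_cases h0 : w 0 = 1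
  · have st : ∀ k, R (b (2 * k)) (b (2 * k + 2)) := by
      intro k
      have := ht (2 * k)
      simp only [t, hw2, if_pos h0] at this
      exact hz this
    have ch : ∀ k, R (b 2) (b (2 + 2 * k)) := by
      intro k
      induction k with
      | zero => exact H.refl _
      | succ k ih =>
        have := st (k + 1)
        rw [show 2 * (k + 1) = 2 + 2 * k by ring] at this
        exact H.trans ih this
    have h1 := ch (n - 1)
    rw [hb] at h1
    have h2 := S.bb 0
    rw [H.anti (st 0) h1] at h2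
    exact hi _ h2
  · have st : ∀ k, R (b (2 * k + 2)) (b (2 * k)) := by
      intro k
      have := ht (2 * k)
      simp only [t, hw2, if_neg h0] at this
      exact hz this
    have ch : ∀ k, R (b (2 + 2 * k)) (b 2) := by
      intro k
      induction k with
      | zero => exact H.refl _
      | succ k ih =>
        have := st (k + 1)
        rw [show 2 * (k + 1) = 2 + 2 * k by ring] at this
        exact H.trans this ih
    have h1 := ch (n - 1)
    rw [hb] at h1
    have h2 := S.bb 0
    rw [H.anti h1 (st 0)] at h2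
    exact hi _ h2

end

end Pool.Agent.P.MP_c3beeb_co.Deg4
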