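import Pool.Agent.P.MP_c3beeb_co.Main
import Pool.Agent.P.MP_c3beeb_co.Converse
import Pool.Agent.P.MP_c3beeb_co.Strip
import Pool.Agent.P.MP_c3beeb_co.BookDefs

set_option autoImplicit false

namespace Pool.Agent.P.MP_c3beeb_co.Deg4

open SimpleGraph Pool.Agent.P.MP_c3beeb_co

/-- the square of the path on `0, …, n - 1` -/
def sqP (n : ℕ) : SimpleGraph (Fin n) where
  Adj a b := a.val ≠ b.val ∧ a.val ≤ b.val + 2 ∧ b.val ≤ a.val + 2
  symm := ⟨fun a b h => by omega⟩
  loopless := ⟨fun a h => h.1 rfl⟩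

/-- the square of the cycle on `0, …, n - 1` -/
def sqC (n : ℕ) : SimpleGraph (Fin n) where
  Adj a b := a.val ≠ b.val ∧ ((a.val ≤ b.val + 2 ∧ b.val ≤ a.val + 2) ∨
    a.val + n ≤ b.val + 2 ∨ b.val + n ≤ a.val + 2)
  symm := ⟨fun a b h => by omega⟩
  loopless := ⟨fun a h => h.1 rfl⟩

/-- the sum of the two ends of an edge -/
def cd {n : ℕ} : Sym2 (Fin n) → ℕ := Sym2.lift ⟨fun a b => a.val + b.val, fun _ _ => add_comm _ _⟩

/-- the order on the codes of the edges of the square of a path -/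
def RP (s t : ℕ) : Prop :=
  s = t ∨ (s % 4 = 3 ∧ t % 4 = 1) ∨ (s % 4 = 3 ∧ t % 4 = 2 ∧ s ≤ t + 1) ∨
    (s % 4 = 3 ∧ t % 4 = 0 ∧ t ≤ s + 1) ∨ (s % 4 = 2 ∧ t % 4 = 2 ∧ s < t) ∨
    (s % 4 = 0 ∧ t % 4 = 0 ∧ t < s) ∨ (s % 4 = 2 ∧ t % 4 = 1 ∧ s ≤ t + 1) ∨
    (s % 4 = 0 ∧ t % 4 = 1 ∧ t ≤ s + 1)

/-- adjacency of codes -/
def AP (s t : ℕ) : Prop :=
  (s % 2 = 1 ∧ (s + 2 = t ∨ t + 2 = s)) ∨ (s % 2 = 0 ∧ (s + 4 = t ∨ t + 4 = s)) ∨
    s + 1 = t ∨ t + 1 = s ∨ s + 3 = t ∨ t + 3 = s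

lemma RP_trans {x y z : ℕ} (h1 : RP x y) (h2 : RP y z) : RP x z := by
  unfold RP at *
  rcases h1 with h | h | h | h | h | h | h | h <;>
    rcases h2 with g | g | g | g | g | g | g | g <;> omega

lemma RP_anti {x y : ℕ} (h1 : RP x y) (h2 : RP y x) : x = y := by
  unfold RP at *
  rcases h1 with h | h | h | h | h | h | h | h <;>
    rcases h2 with g | g | g | g | g | g | g | g <;> omega

lemma RP_tot {x y : ℕ} (h : AP x y) : RP x y ∨ RP y x := by
  unfold AP at h
  unfold RP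
  have h1 : x % 4 = 0 ∨ x % 4 = 1 ∨ x % 4 = 2 ∨ x % 4 = 3 := by omega
  have h2 : y % 4 = 0 ∨ y % 4 = 1 ∨ y % 4 = 2 ∨ y % 4 = 3 := by omega
  rcases h1 with k | k | k | k <;> rcases h2 with l | l | l | l <;>
    simp only [k, l, Nat.reduceEqDiff, false_and, and_false, true_and, or_false, false_or,
      and_self, or_true, true_or] <;> omega

lemma RP_short {x a b y : ℕ} (h1 : RP x a) (h2 : RP a b) (h3 : RP b y) (h : AP x y)
    (hab : a ≠ b) : AP a b := by
  unfold RP at h1 h2 h3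
  unfold AP at h ⊢
  rcases h2 with g | g | g | g | g | g | g | g
  · exact absurd g hab
  all_goals
    rcases h1 with h | h | h | h | h | h | h | h <;>
      rcases h3 with k | k | k | k | k | k | k | k <;> omega

lemma sqP_cd (n : ℕ) (e f : (sqP n).edgeSet) :
    (cd e.1 = cd f.1 → e = f) ∧ ((sqP n).lineGraph.Adj e f ↔ AP (cd e.1) (cd f.1)) := by
  obtain ⟨e, he⟩ := e
  obtain ⟨f, hf⟩ := f
  induction e using Sym2.ind with
  | h a b =>
    induction f using Sym2.ind with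
    | h c d =>
      rw [edge_eq_iff, line_adj_iff]
      simp only [mem_edgeSet, sqP] at he hf
      simp only [cd, Sym2.lift_mk, AP]
      have h1 : b.val = a.val + 1 ∨ b.val = a.val + 2 ∨ a.val = b.val + 1 ∨ a.val = b.val + 2 := by
        omega
      have h2 : d.val = c.val + 1 ∨ d.val = c.val + 2 ∨ c.val = d.val + 1 ∨ c.val = d.val + 2 := by
        omega
      rcases h1 with h | h | h | h <;> rcases h2 with g | g | g | g <;> omega

theorem sqP_representable (n : ℕ) : Representable (sqP n).lineGraph := by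
  classical
  refine representable_of_shadow _ (fun e f => RP (cd e.1) (cd f.1))
    ⟨fun h => h.symm, fun _ => Or.inl rfl, RP_trans, fun h1 h2 => (sqP_cd n _ _).1 (RP_anti h1 h2),
      fun h => RP_tot ((sqP_cd n _ _).2.mp h), fun h1 h2 h3 h hab => ?_⟩
  exact (sqP_cd n _ _).2.mpr (RP_short h1 h2 h3 ((sqP_cd n _ _).2.mp h)
    fun h' => hab ((sqP_cd n _ _).1 h'))

lemma mod_step (n i : ℕ) (hn : 5 ≤ n) (k : ℕ) (hk : k ≤ 4) :
    i % n < n ∧ (((i + k) % n = i % n + k ∧ i % n + k < n) ∨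
      ((i + k) % n + n = i % n + k ∧ n ≤ i % n + k)) := by
  have h0 : i % n < n := Nat.mod_lt _ (by omega)
  refine ⟨h0, ?_⟩
  have h1 : (i + k) % n = (i % n + k) % n := by simp
  by_cases h : i % n + k < n
  · exact Or.inl ⟨by rw [h1, Nat.mod_eq_of_lt h], h⟩
  · refine Or.inr ⟨?_, by omega⟩
    rw [h1, Nat.mod_eq_sub_mod (by omega), Nat.mod_eq_of_lt (by omega)]
    omega

/-- short edges of the square of the cycle -/
def ca (n : ℕ) (hn : 5 ≤ n) (i : ℕ) : (sqC n).edgeSet :=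
  ⟨s(⟨i % n, Nat.mod_lt _ (by omega)⟩, ⟨(i + 1) % n, Nat.mod_lt _ (by omega)⟩), by
    have := mod_step n i hn 1 (by omega)
    simp only [mem_edgeSet, sqC]; omega⟩

/-- long edges of the square of the cycle -/
def cb (n : ℕ) (hn : 5 ≤ n) (i : ℕ) : (sqC n).edgeSet :=
  ⟨s(⟨i % n, Nat.mod_lt _ (by omega)⟩, ⟨(i + 2) % n, Nat.mod_lt _ (by omega)⟩), by
    have := mod_step n i hn 2 (by omega)
    simp only [mem_edgeSet, sqC]; omega⟩

lemma sqC_strip (n : ℕ) (hn : 5 ≤ n) : Strip (sqC n).lineGraph.Adj n (ca n hn) (cb n hn) := by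
  have M : ∀ i, (i % n < n ∧ (((i + 1) % n = i % n + 1 ∧ i % n + 1 < n) ∨
        ((i + 1) % n + n = i % n + 1 ∧ n ≤ i % n + 1))) ∧
      (i % n < n ∧ (((i + 2) % n = i % n + 2 ∧ i % n + 2 < n) ∨
        ((i + 2) % n + n = i % n + 2 ∧ n ≤ i % n + 2))) ∧
      (i % n < n ∧ (((i + 3) % n = i % n + 3 ∧ i % n + 3 < n) ∨
        ((i + 3) % n + n = i % n + 3 ∧ n ≤ i % n + 3))) ∧
      (i % n < n ∧ (((i + 4) % n = i % n + 4 ∧ i % n + 4 < n) ∨
        ((i + 4) % n + n = i % n + 4 ∧ n ≤ i % n + 4))) := fun i =>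
    ⟨mod_step n i hn 1 (by omega), mod_step n i hn 2 (by omega), mod_step n i hn 3 (by omega),
      mod_step n i hn 4 (by omega)⟩
  refine ⟨fun i => ?_, fun i => ?_, fun i => ?_, fun i => ?_, fun i => ?_, fun i => ?_,
    fun i => ?_, fun i => ?_, fun i => ?_, fun i => ?_, fun i => ?_⟩
  · unfold ca
    rw [edge_eq_iff]
    left
    simp only [show i + n + 1 = i + 1 + n by omega, Nat.add_mod_right, and_self]
  · unfold cb
    rw [edge_eq_iff]
    left
    simp only [show i + n + 2 = i + 2 + n by omega, Nat.add_mod_right, and_self]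
  all_goals
    have := M i
    simp only [ca, cb, ne_eq, edge_eq_iff, line_adj_iff, add_assoc, Nat.reduceAdd, true_and,
      and_true, true_or, or_true]
    generalize i % n = x0 at *
    generalize (i + 1) % n = x1 at *
    generalize (i + 2) % n = x2 at *
    generalize (i + 3) % n = x3 at *
    generalize (i + 4) % n = x4 at *
    omega

theorem sqC_not_representable (n : ℕ) (hn : 5 ≤ n) : ¬ Representable (sqC n).lineGraph := by
  intro h
  obtain ⟨R, hR⟩ := shadow_of_representable h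
  exact no_strip hR (fun x => (sqC n).lineGraph.irrefl) n (by omega) _ _ (sqC_strip n hn)

lemma contained_sqP {k m : ℕ} (F : SimpleGraph (Fin k)) (hk : k < m) (h : F ⊑ sqC (2 * m)) :
    F ⊑ sqP (2 * m) := by
  obtain ⟨f⟩ := h
  have hr : ∃ r : Fin m, ∀ v, (f v).val / 2 ≠ r.val := by
    by_contra hc
    push Not at hc
    choose g hg using hc
    have hinj : Function.Injective g := by
      intro a b hab
      have := hg a
      rw [hab, hg b] at this
      exact Fin.ext this.symm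
    have := Fintype.card_le_of_injective g hinj
    simp at this
    omega
  obtain ⟨r, hr⟩ := hr
  have hrn := r.2
  let ρ : Fin (2 * m) → Fin (2 * m) := fun a =>
    ⟨if 2 * r.val ≤ a.val then a.val - 2 * r.val else a.val + 2 * m - 2 * r.val, by
      have := a.2
      split_ifs <;> omega⟩
  refine ⟨⟨⟨fun v => ρ (f v), ?_⟩, ?_⟩⟩
  · intro a b hab
    have h1 : (sqC (2 * m)).Adj (f a) (f b) := f.toHom.map_adj hab
    have h2 := hr a
    have h3 := hr b
    have h4 := (f a).2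
    have h5 := (f b).2
    simp only [sqC] at h1
    simp only [sqP, ρ]
    split_ifs <;> omega
  · intro a b hab
    apply f.injective
    have h4 := (f a).2
    have h5 := (f b).2
    have := congrArg Fin.val hab
    simp only [ρ, RelHom.coeFn_mk] at this
    apply Fin.ext
    change (f a).val = (f b).val
    split_ifs at this <;> omega

lemma sqP_le (n : ℕ) : sqP n ≤ sqC n := fun _ _ h => ⟨h.1, Or.inl h.2⟩

lemma sqC_deg (n : ℕ) (hn : 5 ≤ n) (v : Fin n) : ((sqC n).neighborSet v).ncard ≤ 4 := by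
  rw [← Set.ncard_image_of_injective _ Fin.val_injective]
  have hv := v.2
  have hsub : Fin.val '' (sqC n).neighborSet v ⊆
      {if v.val + 1 < n then v.val + 1 else v.val + 1 - n,
        if v.val + 2 < n then v.val + 2 else v.val + 2 - n,
        if 1 ≤ v.val then v.val - 1 else v.val + n - 1,
        if 2 ≤ v.val then v.val - 2 else v.val + n - 2} := by
    rintro _ ⟨u, hu, rfl⟩
    have hu2 := u.2
    simp only [mem_neighborSet, sqC] at hu
    simp only [Set.mem_insert_iff, Set.mem_singleton_iff]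
    split_ifs <;> omega
  refine (Set.ncard_le_ncard hsub (Set.toFinite _)).trans ?_
  refine (Set.ncard_insert_le _ _).trans ?_
  refine Nat.succ_le_succ ((Set.ncard_insert_le _ _).trans (Nat.succ_le_succ ?_))
  refine (Set.ncard_insert_le _ _).trans ?_
  simp

lemma sqC_twoPage (m : ℕ) : TwoPage (sqC (2 * m)) := by
  refine ⟨Fin.val, Sym2.lift ⟨fun a b => decide (a.val % 2 = 0 ∧ b.val % 2 = 0), fun a b => ?_⟩,
    Fin.val_injective, fun a b x y h1 h2 h3 h4 h5 => ?_⟩
  · simp only [and_comm]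
  · simp only [sqC] at h1 h2
    have := y.2
    simp only [Sym2.lift_mk, ne_eq, decide_eq_decide]
    omega

lemma TwoPage.mono {V : Type} {G H : SimpleGraph V} (h : G ≤ H) (hH : TwoPage H) : TwoPage G := by
  obtain ⟨p, c, hp, hc⟩ := hH
  exact ⟨p, c, hp, fun a b x y h1 h2 => hc a b x y (h h1) (h h2)⟩

theorem main : ¬ ∃ 𝓕 : Set (Σ k : ℕ, SimpleGraph (Fin k)), 𝓕.Finite ∧
    ∀ (n : ℕ) (G : SimpleGraph (Fin n)), (∀ v, (G.neighborSet v).ncard ≤ 4) → TwoPage G →
      (Representable G.lineGraph ↔ ∀ F ∈ 𝓕, ¬ F.2.IsContained G) := by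
  rintro ⟨𝓕, hfin, h⟩
  obtain ⟨B, hB⟩ := (hfin.image Sigma.fst).bddAbove
  have hn : 5 ≤ 2 * (B + 3) := by omega
  have h1 := sqC_not_representable _ hn
  rw [h _ _ (sqC_deg _ hn) (sqC_twoPage _)] at h1
  push Not at h1
  obtain ⟨F, hF, hc⟩ := h1
  have hk : F.1 ≤ B := hB ⟨F, hF, rfl⟩
  refine (h _ _ (fun v => ?_) (TwoPage.mono (sqP_le _) (sqC_twoPage _))).mp
    (sqP_representable (2 * (B + 3))) F hF (contained_sqP F.2 (by omega) hc)
  exact (Set.ncard_le_ncard (fun u hu => sqP_le _ hu) (Set.toFinite _)).trans (sqC_deg _ hn v)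

end Pool.Agent.P.MP_c3beeb_co.Deg4
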