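import Pool.Agent.P.MP_c3beeb_co.Main

set_option autoImplicit false

namespace Pool.Agent.P.MP_c3beeb_co.VariantNoFiniteFamily

open Pool.Agent.P.MP_c3beeb_co

theorem result : ¬ ∃ 𝓕 : Set (Σ k : ℕ, SimpleGraph (Fin k)), 𝓕.Finite ∧
    ∀ (n : ℕ) (G : SimpleGraph (Fin n)),
      Representable G.lineGraph ↔ ∀ F ∈ 𝓕, ¬ F.2.IsContained G :=
  Pool.Agent.P.MP_c3beeb_co.main

end Pool.Agent.P.MP_c3beeb_co.VariantNoFiniteFamily
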