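import Pool.Agent.P.MP_c3beeb_co.Defs

set_option autoImplicit false

namespace Pool.Agent.P.MP_c3beeb_co

open Classical

/-- `x` and `y` alternate in the word, `x` being the next expected letter -/
def Alt {V : Type} : V → V → List V → Prop
  | _, _, [] => True
  | x, y, z :: w => if z = x then Alt y x w else if z = y then False else Alt x y w

lemma alt_iff_count {V : Type} (w : List V) : ∀ x y : V, x ≠ y →
    (Alt x y w ↔ ∀ t, (w.take t).count y ≤ (w.take t).count x ∧
      (w.take t).count x ≤ (w.take t).count y + 1) := by
  induction w with
  | nil => intro x y _; simp [Alt]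
  | cons z w ih =>
    intro x y hxy
    unfold Alt
    by_cases h1 : z = x
    · subst h1
      rw [if_pos rfl, ih y z hxy.symm]
      constructor
      · intro h t
        cases t with
        | zero => simp
        | succ t =>
          have := h t
          simp only [List.take_succ_cons, List.count_cons, beq_iff_eq, hxy, if_false, if_true]
          omega
      · intro h t
        have := h (t + 1)
        simp only [List.take_succ_cons, List.count_cons, beq_iff_eq, hxy, if_false, if_true] at this
        omega
    · rw [if_neg h1]
      by_cases h2 : z = y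
      · subst h2
        rw [if_pos rfl]
        constructor
        · exact False.elim
        · intro h
          have := h 1
          simp [h1] at this
      · rw [if_neg h2, ih x y hxy]
        constructor
        · intro h t
          cases t with
          | zero => simp
          | succ t =>
            have := h t
            simp only [List.take_succ_cons, List.count_cons, beq_iff_eq, h1, h2, if_false]
            omega
        · intro h t
          have := h (t + 1)
          simp only [List.take_succ_cons, List.count_cons, beq_iff_eq, h1, h2, if_false] at this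
          omega

lemma chain_cons_iff_alt {V : Type} (w : List V) : ∀ x y : V, x ≠ y →
    (List.IsChain (fun a b => a ≠ b) (y :: w.filter (fun z => decide (z = x ∨ z = y))) ↔
      Alt x y w) := by
  induction w with
  | nil => intro x y _; simp [Alt]
  | cons z w ih =>
    intro x y hxy
    unfold Alt
    by_cases h1 : z = x
    · subst h1
      rw [if_pos rfl, ← ih y z hxy.symm, List.filter_cons_of_pos (by simp), List.isChain_cons_cons]
      simp only [or_comm (a := _ = z)]
      exact ⟨fun h => h.2, fun h => ⟨hxy.symm, h⟩⟩
    · rw [if_neg h1]
      by_cases h2 : z = y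
      · subst h2
        rw [if_pos rfl, List.filter_cons_of_pos (by simp), List.isChain_cons_cons]
        simp
      · rw [if_neg h2, List.filter_cons_of_neg (by simp [h1, h2]), ih x y hxy]

lemma chain_iff_alt {V : Type} (w : List V) (x y : V) (hxy : x ≠ y) :
    List.IsChain (fun a b => a ≠ b) (w.filter (fun z => decide (z = x ∨ z = y))) ↔
      Alt x y w ∨ Alt y x w := by
  rw [← chain_cons_iff_alt w x y hxy, ← chain_cons_iff_alt w y x hxy.symm]
  simp only [or_comm (a := _ = y)]
  have hmem : ∀ z ∈ w.filter (fun z => decide (z = x ∨ z = y)), z = x ∨ z = y := by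
    intro z hz; simpa using (List.mem_filter.mp hz).2
  generalize w.filter (fun z => decide (z = x ∨ z = y)) = l at hmem
  cases l with
  | nil => simp
  | cons a l =>
    rw [List.isChain_cons_cons, List.isChain_cons_cons]
    rcases hmem a (by simp) with h | h
    · subst h; simp [hxy.symm]
    · subst h; simp [hxy]

/-- the order-theoretic shadow of a representation -/
structure Shadow {V : Type} (A R : V → V → Prop) : Prop where
  symm : ∀ {x y}, A x y → A y x
  refl : ∀ x, R x x
  trans : ∀ {x y z}, R x y → R y z → R x z
  anti : ∀ {x y}, R x y → R y x → x = y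
  tot : ∀ {x y}, A x y → R x y ∨ R y x
  short : ∀ {x a b y}, R x a → R a b → R b y → A x y → a ≠ b → A a b

lemma shadow_of_representable {V : Type} {G : SimpleGraph V} (h : Representable G) :
    ∃ R : V → V → Prop, Shadow G.Adj R := by
  obtain ⟨w, hw, hG⟩ := h
  have hadj : ∀ x y, x ≠ y → (G.Adj x y ↔ Alt x y w ∨ Alt y x w) := by
    intro x y hxy
    rw [hG x y hxy, Alternate, chain_iff_alt w x y hxy]
    simp [hw]
  have hanti : ∀ x y, (∀ t, (w.take t).count y ≤ (w.take t).count x) →
      (∀ t, (w.take t).count x ≤ (w.take t).count y) → x = y := by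
    intro x y h1 h2
    by_contra hne
    obtain ⟨i, hi, rfl⟩ := List.getElem_of_mem (hw x)
    have e1 := le_antisymm (h1 i) (h2 i)
    have e2 := h2 (i + 1)
    rw [List.take_succ_eq_append_getElem hi, List.count_append, List.count_append] at e2
    simp [hne] at e2
    omega
  refine ⟨fun x y => ∀ t, (w.take t).count y ≤ (w.take t).count x,
    ⟨fun h => h.symm, fun x t => le_rfl, fun h1 h2 t => (h2 t).trans (h1 t),
      fun h1 h2 => hanti _ _ h1 h2, ?_, ?_⟩⟩
  · intro x y hxy
    rcases (hadj x y hxy.ne).mp hxy with h | h
    · exact Or.inl fun t => ((alt_iff_count w x y hxy.ne).mp h t).1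
    · exact Or.inr fun t => ((alt_iff_count w y x hxy.ne.symm).mp h t).1
  · intro x a b y h1 h2 h3 hxy hab
    rcases (hadj x y hxy.ne).mp hxy with h | h
    · refine (hadj a b hab).mpr (Or.inl ((alt_iff_count w a b hab).mpr fun t => ⟨h2 t, ?_⟩))
      have := ((alt_iff_count w x y hxy.ne).mp h t).2
      have := h1 t
      have := h3 t
      omega
    · exact absurd (hanti x y (fun t => (h3 t).trans ((h2 t).trans (h1 t)))
        (fun t => ((alt_iff_count w y x hxy.ne.symm).mp h t).1)) hxy.ne

lemma alt_filterMap {V : Type} (w : List (Option V)) : ∀ x y : V,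
    (Alt x y (w.filterMap id) ↔ Alt (some x) (some y) w) := by
  induction w with
  | nil => intro x y; simp [Alt]
  | cons z w ih =>
    intro x y
    cases z with
    | none =>
      rw [List.filterMap_cons_none rfl, ih]
      simp [Alt]
    | some z =>
      rw [List.filterMap_cons_some (f := id) (a := some z) (b := z) rfl]
      simp only [Alt, ih, Option.some.injEq]

/-- number of occurrences -/
noncomputable def cnt {W : Type} (a : W) (l : List W) : ℕ := l.count a

lemma mem_of_cnt_pos {W : Type} {a : W} {l : List W} (h : 0 < cnt a l) : a ∈ l :=
  List.count_pos_iff.mp h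

lemma count_one {W : Type} (f : ℕ → W) (a : W) (p : ℕ) (h : ∀ q, f q = a ↔ q = p) (t : ℕ) :
    cnt a ((List.range t).map f) = if p < t then 1 else 0 := by
  unfold cnt
  induction t with
  | zero => simp
  | succ t ih =>
    rw [List.range_succ, List.map_append, List.count_append, ih]
    simp only [List.map_cons, List.map_nil, List.count_cons, List.count_nil, beq_iff_eq, h]
    split_ifs <;> omega

lemma count_two {W : Type} (f : ℕ → W) (a : W) (p p' : ℕ) (hp : p ≠ p')
    (h : ∀ q, f q = a ↔ q = p ∨ q = p') (t : ℕ) :
    cnt a ((List.range t).map f) = (if p < t then 1 else 0) + (if p' < t then 1 else 0) := by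
  unfold cnt
  induction t with
  | zero => simp
  | succ t ih =>
    rw [List.range_succ, List.map_append, List.count_append, ih]
    simp only [List.map_cons, List.map_nil, List.count_cons, List.count_nil, beq_iff_eq, h]
    split_ifs <;> omega

/-- a criterion for representability by a word given through positions -/
lemma representable_of_counts {V : Type} (G : SimpleGraph V) (f : ℕ → Option V) (L : ℕ)
    (c : V → ℕ → ℕ) (hc : ∀ v t, cnt (some v) ((List.range t).map f) = c v t)
    (hpos : ∀ v, 0 < c v L)
    (hadj : ∀ x y, x ≠ y → (G.Adj x y ↔
      (∀ t ≤ L, c y t ≤ c x t ∧ c x t ≤ c y t + 1) ∨ (∀ t ≤ L, c x t ≤ c y t ∧ c y t ≤ c x t + 1))) :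
    Representable G := by
  have hmem : ∀ v, v ∈ ((List.range L).map f).filterMap id := by
    intro v
    rw [List.mem_filterMap]
    refine ⟨some v, ?_, rfl⟩
    have := hpos v
    rw [← hc] at this
    exact mem_of_cnt_pos this
  have key : ∀ x y, x ≠ y → (Alt x y (((List.range L).map f).filterMap id) ↔
      ∀ t ≤ L, c y t ≤ c x t ∧ c x t ≤ c y t + 1) := by
    intro x y hxy
    rw [alt_filterMap, alt_iff_count _ _ _ (by simpa using hxy)]
    unfold cnt at hc
    simp only [← List.map_take, List.take_range, hc]
    constructor
    · intro h t ht
      have := h t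
      rwa [min_eq_left ht] at this
    · intro h t
      exact h _ (min_le_right _ _)
  refine ⟨((List.range L).map f).filterMap id, hmem, fun x y hxy => ?_⟩
  rw [Alternate, chain_iff_alt _ x y hxy, key x y hxy, key y x hxy.symm, hadj x y hxy]
  simp only [hmem, true_and]

end Pool.Agent.P.MP_c3beeb_co
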